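import Mathlib

/-! Real inequalities for the logarithmic coefficients row. -/

set_option autoImplicit false

namespace Q94.LC

open Finset

/-- weighted Jensen for squares -/
lemma jensen_sq {ι : Type*} (s : Finset ι) (w a : ι → ℝ) (hw : ∀ i ∈ s, 0 ≤ w i)
    (h1 : ∑ i ∈ s, w i = 1) : (∑ i ∈ s, w i * a i) ^ 2 ≤ ∑ i ∈ s, w i * a i ^ 2 := by
  set m := ∑ i ∈ s, w i * a i with hm
  have h2 : 0 ≤ ∑ i ∈ s, w i * (a i - m) ^ 2 :=
    Finset.sum_nonneg fun i hi => mul_nonneg (hw i hi) (sq_nonneg _)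
  have h3 : ∑ i ∈ s, w i * (a i - m) ^ 2
      = ∑ i ∈ s, w i * a i ^ 2 - 2 * m * ∑ i ∈ s, w i * a i + m ^ 2 * ∑ i ∈ s, w i := by
    generalize m = c
    rw [Finset.mul_sum, Finset.mul_sum, ← Finset.sum_sub_distrib, ← Finset.sum_add_distrib]
    exact Finset.sum_congr rfl fun i _ => by ring
  rw [h3, h1, ← hm] at h2
  nlinarith

lemma sum_sq_lower (n : ℕ) (f : ℕ → ℝ) (m : ℝ) (h : ∑ j ∈ range n, f j = n * m) :
    (n : ℝ) * m ^ 2 ≤ ∑ j ∈ range n, f j ^ 2 := by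
  have h2 : 0 ≤ ∑ j ∈ range n, (f j - m) ^ 2 := Finset.sum_nonneg fun j _ => sq_nonneg _
  have h3 : ∑ j ∈ range n, (f j - m) ^ 2
      = ∑ j ∈ range n, f j ^ 2 - 2 * m * ∑ j ∈ range n, f j + n * m ^ 2 := by
    have : (n : ℝ) * m ^ 2 = ∑ _j ∈ range n, m ^ 2 := by simp
    rw [this, Finset.mul_sum, ← Finset.sum_sub_distrib, ← Finset.sum_add_distrib]
    exact Finset.sum_congr rfl fun i _ => by ring
  rw [h3, h] at h2
  nlinarith

/-- inequality A -/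
theorem ineqA (n : ℕ) (x y p : ℕ → ℝ) (K : ℕ → ℕ → ℝ) (X b : ℝ)
    (hK0 : ∀ j i, 0 ≤ K j i)
    (hK1 : ∀ j ∈ range n, ∑ i ∈ range n, K j i = 1)
    (hK2 : ∀ i ∈ range n, ∑ j ∈ range n, K j i = 1)
    (hp : ∀ j ∈ range n, p j = ∑ i ∈ range n, K j i * x i)
    (hx0 : ∑ i ∈ range n, x i = 0)
    (hx2 : ∑ i ∈ range n, x i ^ 2 = n * X)
    (hy2 : ∑ j ∈ range n, y j ^ 2 = n * X)
    (hp2 : ∑ j ∈ range n, p j ^ 2 = n * b)
    (h1 : ∑ i ∈ range n, x i ^ 3 = 3 * ∑ j ∈ range n, y j ^ 2 * p j)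
    (h2 : ∑ i ∈ range n, (x i ^ 2 - ∑ j ∈ range n, K j i * y j ^ 2) ^ 2
      = 4 * ∑ j ∈ range n, y j ^ 2 * p j ^ 2) :
    (n : ℝ) * b ≤ ∑ i ∈ range n, (2 * x i - x i ^ 2 + X) ^ 2
      + ∑ j ∈ range n, (y j ^ 2 - X) ^ 2 := by
  set r : ℕ → ℝ := fun j => ∑ i ∈ range n, K j i * x i ^ 2 with hr
  set B : ℕ → ℝ := fun i => ∑ j ∈ range n, K j i * y j ^ 2 with hB
  -- sums of p, r
  have hp0 : ∑ j ∈ range n, p j = 0 := by
    rw [Finset.sum_congr rfl hp, Finset.sum_comm]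
    have : ∀ i ∈ range n, ∑ j ∈ range n, K j i * x i = x i := fun i hi => by
      rw [← Finset.sum_mul, hK2 i hi, one_mul]
    rw [Finset.sum_congr rfl this, hx0]
  have hr0 : ∑ j ∈ range n, r j = n * X := by
    simp only [hr]
    rw [Finset.sum_comm]
    have : ∀ i ∈ range n, ∑ j ∈ range n, K j i * x i ^ 2 = x i ^ 2 := fun i hi => by
      rw [← Finset.sum_mul, hK2 i hi, one_mul]
    rw [Finset.sum_congr rfl this, hx2]
  -- (c) r ≥ p²
  have hv : ∀ j ∈ range n, 0 ≤ r j - p j ^ 2 := fun j hj => by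
    have := jensen_sq (range n) (K j) x (fun i _ => hK0 j i) (hK1 j hj)
    rw [← hp j hj] at this
    simp only [hr]
    linarith
  -- (a)
  have ha : ∑ i ∈ range n, B i ^ 2 ≤ ∑ j ∈ range n, (y j ^ 2) ^ 2 := by
    calc ∑ i ∈ range n, B i ^ 2
        ≤ ∑ i ∈ range n, ∑ j ∈ range n, K j i * (y j ^ 2) ^ 2 :=
          Finset.sum_le_sum fun i hi =>
            jensen_sq (range n) (fun j => K j i) (fun j => y j ^ 2) (fun j _ => hK0 j i) (hK2 i hi)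
      _ = ∑ j ∈ range n, ∑ i ∈ range n, K j i * (y j ^ 2) ^ 2 := Finset.sum_comm
      _ = ∑ j ∈ range n, (y j ^ 2) ^ 2 := Finset.sum_congr rfl fun j hj => by
          rw [← Finset.sum_mul, hK1 j hj, one_mul]
  -- (b)
  have hb : ∑ j ∈ range n, (2 * p j - r j + X) ^ 2
      ≤ ∑ i ∈ range n, (2 * x i - x i ^ 2 + X) ^ 2 := by
    calc ∑ j ∈ range n, (2 * p j - r j + X) ^ 2
        ≤ ∑ j ∈ range n, ∑ i ∈ range n, K j i * (2 * x i - x i ^ 2 + X) ^ 2 := by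
          refine Finset.sum_le_sum fun j hj => ?_
          have h3 := jensen_sq (range n) (K j) (fun i => 2 * x i - x i ^ 2 + X)
            (fun i _ => hK0 j i) (hK1 j hj)
          have h4 : ∑ i ∈ range n, K j i * (2 * x i - x i ^ 2 + X) = 2 * p j - r j + X := by
            have : ∀ i ∈ range n, K j i * (2 * x i - x i ^ 2 + X)
                = 2 * (K j i * x i) - K j i * x i ^ 2 + X * K j i := fun i _ => by ring
            rw [Finset.sum_congr rfl this, Finset.sum_add_distrib, Finset.sum_sub_distrib,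
              ← Finset.mul_sum, ← Finset.mul_sum, hK1 j hj, ← hp j hj]
            simp only [hr]
            ring
          rw [h4] at h3
          exact h3
      _ = ∑ i ∈ range n, ∑ j ∈ range n, K j i * (2 * x i - x i ^ 2 + X) ^ 2 := Finset.sum_comm
      _ = ∑ i ∈ range n, (2 * x i - x i ^ 2 + X) ^ 2 := Finset.sum_congr rfl fun i hi => by
          rw [← Finset.sum_mul, hK2 i hi, one_mul]
  -- (d)
  have hd : ∑ i ∈ range n, x i ^ 2 * B i = ∑ j ∈ range n, y j ^ 2 * r j := by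
    simp only [hB, hr, Finset.mul_sum]
    rw [Finset.sum_comm]
    exact Finset.sum_congr rfl fun j _ => Finset.sum_congr rfl fun i _ => by ring
  -- fourth powers
  have he : ∑ i ∈ range n, x i ^ 4 - 2 * ∑ j ∈ range n, y j ^ 2 * r j
      + ∑ i ∈ range n, B i ^ 2 = 4 * ∑ j ∈ range n, y j ^ 2 * p j ^ 2 := by
    rw [← h2, ← hd, Finset.mul_sum, ← Finset.sum_sub_distrib, ← Finset.sum_add_distrib]
    exact Finset.sum_congr rfl fun i _ => by ring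
  have hnX : (n : ℝ) * X ^ 2 = ∑ _j ∈ range n, X ^ 2 := by simp
  -- expansion of the first sum
  have hf : ∑ i ∈ range n, (2 * x i - x i ^ 2 + X) ^ 2
      = n * X + 3 / 4 * ∑ i ∈ range n, (2 * x i - x i ^ 2 + X) ^ 2
        - 3 * ∑ j ∈ range n, y j ^ 2 * p j + 1 / 4 * (∑ i ∈ range n, x i ^ 4 - n * X ^ 2) := by
    have h5 : ∀ i ∈ range n, (2 * x i - x i ^ 2 + X) ^ 2
        = x i ^ 2 + 3 / 4 * (2 * x i - x i ^ 2 + X) ^ 2 - (x i ^ 3 - X * x i)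
          + 1 / 4 * x i ^ 4 - 1 / 2 * X * x i ^ 2 + 1 / 4 * X ^ 2 := fun i _ => by ring
    calc ∑ i ∈ range n, (2 * x i - x i ^ 2 + X) ^ 2
        = ∑ i ∈ range n, (x i ^ 2 + 3 / 4 * (2 * x i - x i ^ 2 + X) ^ 2 - (x i ^ 3 - X * x i)
          + 1 / 4 * x i ^ 4 - 1 / 2 * X * x i ^ 2 + 1 / 4 * X ^ 2) := Finset.sum_congr rfl h5
      _ = ∑ i ∈ range n, x i ^ 2 + 3 / 4 * ∑ i ∈ range n, (2 * x i - x i ^ 2 + X) ^ 2
          - (∑ i ∈ range n, x i ^ 3 - X * ∑ i ∈ range n, x i)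
          + 1 / 4 * ∑ i ∈ range n, x i ^ 4 - 1 / 2 * X * ∑ i ∈ range n, x i ^ 2
            + 1 / 4 * ∑ _i ∈ range n, X ^ 2 := by
          simp only [Finset.sum_add_distrib, Finset.sum_sub_distrib, Finset.mul_sum]
      _ = _ := by
          rw [hx2, hx0, h1, ← hnX]
          ring
  have hg : ∑ j ∈ range n, (y j ^ 2 - X) ^ 2 = ∑ j ∈ range n, (y j ^ 2) ^ 2 - n * X ^ 2 := by
    calc ∑ j ∈ range n, (y j ^ 2 - X) ^ 2
        = ∑ j ∈ range n, ((y j ^ 2) ^ 2 - 2 * X * y j ^ 2 + X ^ 2) :=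
          Finset.sum_congr rfl fun j _ => by ring
      _ = ∑ j ∈ range n, (y j ^ 2) ^ 2 - 2 * X * ∑ j ∈ range n, y j ^ 2
          + ∑ _j ∈ range n, X ^ 2 := by
          simp only [Finset.sum_add_distrib, Finset.sum_sub_distrib, Finset.mul_sum]
      _ = _ := by rw [hy2, ← hnX]; ring
  -- the form Φ
  set A : ℕ → ℝ := fun j => p j ^ 2 + y j ^ 2 - 2 * p j with hA
  set v : ℕ → ℝ := fun j => r j - p j ^ 2 with hvdef
  have hA0 : ∑ j ∈ range n, A j = n * (b + X) := by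
    simp only [hA, Finset.sum_add_distrib, Finset.sum_sub_distrib, ← Finset.mul_sum]
    rw [hp2, hy2, hp0]; ring
  have hv0 : ∑ j ∈ range n, v j = n * (X - b) := by
    simp only [hvdef, Finset.sum_sub_distrib]
    rw [hr0, hp2]; ring
  have hAv0 : ∑ j ∈ range n, (A j + v j) = n * (2 * X) := by
    rw [Finset.sum_add_distrib, hA0, hv0]; ring
  have i1 := sum_sq_lower n A _ hA0
  have i2 := sum_sq_lower n v _ hv0
  have i3 := sum_sq_lower n (fun j => A j + v j) _ hAv0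
  have i4 : 0 ≤ ∑ j ∈ range n, (1 - p j) ^ 2 * v j :=
    Finset.sum_nonneg fun j hj => mul_nonneg (sq_nonneg _) (hv j hj)
  have i5 : ∑ j ∈ range n, (1 / 2 * A j ^ 2 + 1 / 2 * v j ^ 2 + 1 / 4 * (A j + v j) ^ 2
        + (1 - p j) ^ 2 * v j + p j ^ 2)
      = n * X + 3 / 4 * (∑ j ∈ range n, (2 * p j - r j + X) ^ 2)
        - 3 * ∑ j ∈ range n, y j ^ 2 * p j
        + ∑ j ∈ range n, y j ^ 2 * p j ^ 2 + 1 / 2 * ∑ j ∈ range n, y j ^ 2 * r j
        + 3 / 4 * ∑ j ∈ range n, (y j ^ 2) ^ 2 + 3 / 4 * n * X ^ 2 := by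
    have h6 : ∀ j ∈ range n, 1 / 2 * A j ^ 2 + 1 / 2 * v j ^ 2 + 1 / 4 * (A j + v j) ^ 2
        + (1 - p j) ^ 2 * v j + p j ^ 2
        = r j + 3 / 4 * (2 * p j - r j + X) ^ 2 - 3 * X * p j + 3 / 2 * X * r j
          - 3 / 4 * X ^ 2
          - 3 * (y j ^ 2 * p j) + y j ^ 2 * p j ^ 2 + 1 / 2 * (y j ^ 2 * r j)
          + 3 / 4 * (y j ^ 2) ^ 2 := fun j _ => by
      simp only [hA, hvdef]; ring
    calc _ = ∑ j ∈ range n, (r j + 3 / 4 * (2 * p j - r j + X) ^ 2 - 3 * X * p j + 3 / 2 * X * r j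
          - 3 / 4 * X ^ 2
          - 3 * (y j ^ 2 * p j) + y j ^ 2 * p j ^ 2 + 1 / 2 * (y j ^ 2 * r j)
          + 3 / 4 * (y j ^ 2) ^ 2) := Finset.sum_congr rfl h6
      _ = ∑ j ∈ range n, r j + 3 / 4 * ∑ j ∈ range n, (2 * p j - r j + X) ^ 2
          - 3 * X * ∑ j ∈ range n, p j + 3 / 2 * X * ∑ j ∈ range n, r j
          - 3 / 4 * ∑ _j ∈ range n, X ^ 2
          - 3 * ∑ j ∈ range n, (y j ^ 2 * p j) + ∑ j ∈ range n, y j ^ 2 * p j ^ 2
          + 1 / 2 * ∑ j ∈ range n, (y j ^ 2 * r j)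
          + 3 / 4 * ∑ j ∈ range n, (y j ^ 2) ^ 2 := by
          simp only [Finset.sum_add_distrib, Finset.sum_sub_distrib, Finset.mul_sum]
      _ = _ := by
          rw [hr0, hp0, ← hnX]; ring
  have i6 : ∑ j ∈ range n, (1 / 2 * A j ^ 2 + 1 / 2 * v j ^ 2 + 1 / 4 * (A j + v j) ^ 2
        + (1 - p j) ^ 2 * v j + p j ^ 2)
      = 1 / 2 * ∑ j ∈ range n, A j ^ 2 + 1 / 2 * ∑ j ∈ range n, v j ^ 2
        + 1 / 4 * ∑ j ∈ range n, (A j + v j) ^ 2 + ∑ j ∈ range n, (1 - p j) ^ 2 * v j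
        + n * b := by
    simp only [Finset.sum_add_distrib, Finset.mul_sum]
    rw [hp2]
  have hn0 : (0 : ℝ) ≤ n := Nat.cast_nonneg n
  have i7 : 0 ≤ (n : ℝ) * b ^ 2 := by positivity
  have i8 : (n : ℝ) * (b + X) ^ 2 = n * b ^ 2 + 2 * (n * (b * X)) + n * X ^ 2 := by ring
  have i9 : (n : ℝ) * (X - b) ^ 2 = n * b ^ 2 - 2 * (n * (b * X)) + n * X ^ 2 := by ring
  have i10 : (n : ℝ) * (2 * X) ^ 2 = 4 * (n * X ^ 2) := by ring
  rw [i8] at i1
  rw [i9] at i2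
  rw [i10] at i3
  rw [i6] at i5
  linarith

/-- inequality B and the conclusion -/
theorem ineqAB (n : ℕ) (x y p : ℕ → ℝ) (K : ℕ → ℕ → ℝ) (X b : ℝ) (hX : 0 ≤ X)
    (hK0 : ∀ j i, 0 ≤ K j i)
    (hK1 : ∀ j ∈ range n, ∑ i ∈ range n, K j i = 1)
    (hK2 : ∀ i ∈ range n, ∑ j ∈ range n, K j i = 1)
    (hp : ∀ j ∈ range n, p j = ∑ i ∈ range n, K j i * x i)
    (hx0 : ∑ i ∈ range n, x i = 0)
    (hx2 : ∑ i ∈ range n, x i ^ 2 = n * X)
    (hy2 : ∑ j ∈ range n, y j ^ 2 = n * X)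
    (hp2 : ∑ j ∈ range n, p j ^ 2 = n * b)
    (h1 : ∑ i ∈ range n, x i ^ 3 = 3 * ∑ j ∈ range n, y j ^ 2 * p j)
    (h2 : ∑ i ∈ range n, (x i ^ 2 - ∑ j ∈ range n, K j i * y j ^ 2) ^ 2
      = 4 * ∑ j ∈ range n, y j ^ 2 * p j ^ 2) :
    (61 / 100 : ℝ) * (n * X) ≤ ∑ i ∈ range n, (2 * x i - x i ^ 2 + X) ^ 2
      + ∑ j ∈ range n, (y j ^ 2 - X) ^ 2 := by
  have hA := ineqA n x y p K X b hK0 hK1 hK2 hp hx0 hx2 hy2 hp2 h1 h2
  have hn0 : (0 : ℝ) ≤ n := Nat.cast_nonneg n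
  rcases le_or_gt (61 / 100 * X) b with hb | hb
  · have : (n : ℝ) * (61 / 100 * X) ≤ n * b := mul_le_mul_of_nonneg_left hb hn0
    linarith
  have hp0 : ∑ j ∈ range n, p j = 0 := by
    rw [Finset.sum_congr rfl hp, Finset.sum_comm]
    have : ∀ i ∈ range n, ∑ j ∈ range n, K j i * x i = x i := fun i hi => by
      rw [← Finset.sum_mul, hK2 i hi, one_mul]
    rw [Finset.sum_congr rfl this, hx0]
  set C := ∑ i ∈ range n, x i ^ 3 with hC
  set Je := ∑ i ∈ range n, (2 * x i - x i ^ 2 + X) ^ 2 with hJe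
  set Jg := ∑ j ∈ range n, (y j ^ 2 - X) ^ 2 with hJg
  have c1 : (2 * (n * X) - C) ^ 2 ≤ n * X * Je := by
    have h3 := Finset.sum_mul_sq_le_sq_mul_sq (range n) (fun i => x i)
      (fun i => 2 * x i - x i ^ 2 + X)
    have h4 : ∑ i ∈ range n, x i * (2 * x i - x i ^ 2 + X) = 2 * (n * X) - C := by
      calc ∑ i ∈ range n, x i * (2 * x i - x i ^ 2 + X)
          = ∑ i ∈ range n, (2 * x i ^ 2 - x i ^ 3 + X * x i) :=
            Finset.sum_congr rfl fun i _ => by ring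
        _ = 2 * ∑ i ∈ range n, x i ^ 2 - ∑ i ∈ range n, x i ^ 3 + X * ∑ i ∈ range n, x i := by
            simp only [Finset.sum_add_distrib, Finset.sum_sub_distrib, Finset.mul_sum]
        _ = _ := by rw [hx2, hx0]; ring
    rw [h4, hx2] at h3
    exact h3
  have c2 : (C / 3) ^ 2 ≤ n * b * Jg := by
    have h3 := Finset.sum_mul_sq_le_sq_mul_sq (range n) (fun i => p i)
      (fun j => y j ^ 2 - X)
    have h4 : ∑ j ∈ range n, p j * (y j ^ 2 - X) = C / 3 := by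
      calc ∑ j ∈ range n, p j * (y j ^ 2 - X)
          = ∑ j ∈ range n, (y j ^ 2 * p j - X * p j) :=
            Finset.sum_congr rfl fun i _ => by ring
        _ = ∑ j ∈ range n, y j ^ 2 * p j - X * ∑ j ∈ range n, p j := by
            simp only [Finset.sum_sub_distrib, Finset.mul_sum]
        _ = _ := by rw [hp0, h1]; ring
    rw [h4, hp2] at h3
    exact h3
  have hJe0 : 0 ≤ Je := Finset.sum_nonneg fun i _ => sq_nonneg _
  have hJg0 : 0 ≤ Jg := Finset.sum_nonneg fun i _ => sq_nonneg _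
  have c3 : C ^ 2 ≤ 549 / 100 * (n * X) * Jg := by
    have h5 : (n : ℝ) * b * Jg ≤ n * (61 / 100 * X) * Jg := by
      have : (n : ℝ) * b ≤ n * (61 / 100 * X) := mul_le_mul_of_nonneg_left hb.le hn0
      exact mul_le_mul_of_nonneg_right this hJg0
    nlinarith
  set m := (n : ℝ) * X with hm
  have hm0 : 0 ≤ m := mul_nonneg hn0 hX
  rcases hm0.eq_or_lt with h0 | hm1
  · rw [← h0]
    nlinarith
  -- (2m - C)² + C²/5.49 ≥ 4 m² / 6.49
  have c4 : 61 / 100 * m * m ≤ m * (Je + Jg) := by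
    have h6 : 61 / 100 * m ^ 2 ≤ (2 * m - C) ^ 2 + C ^ 2 / (549 / 100) := by
      have h7 : C ^ 2 / (549 / 100) = 100 / 549 * C ^ 2 := by ring
      rw [h7]
      nlinarith [sq_nonneg (649 * C - 1098 * m), sq_nonneg m]
    have h8 : C ^ 2 / (549 / 100) ≤ m * Jg := by
      rw [div_le_iff₀ (by norm_num)]
      nlinarith
    nlinarith
  have c5 : 61 / 100 * m ≤ Je + Jg := by
    by_contra hcon
    push Not at hcon
    nlinarith
  exact c5

/-- pointwise lemma on the grid -/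
lemma pointwise (u s κ ε : ℝ) (hε0 : 0 ≤ ε) (hκ : 0 < κ) (hκε : κ + ε ≤ 3 / 2)
    (hu : -(2 - ε - κ) ≤ u) :
    1 / 2 * (κ / (κ + 1)) * u ^ 2 ≤ (1 - ε / 2) * s ^ 2 + 1 / 2 * (u + s + s ^ 2 / 2) ^ 2 := by
  have hω1 : κ / (κ + 1) ≤ 1 := by rw [div_le_one (by linarith)]; linarith
  have hω0 : 0 ≤ κ / (κ + 1) := by positivity
  have key : ∀ k t s : ℝ, κ ≤ k → κ / (κ + 1) * t ^ 2 ≤ k * s ^ 2 + (t - s) ^ 2 := by
    intro k t s hk
    have h1 : κ / (κ + 1) * t ^ 2 ≤ κ * s ^ 2 + (t - s) ^ 2 := by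
      rw [div_mul_eq_mul_div, div_le_iff₀ (by linarith)]
      nlinarith [sq_nonneg ((κ + 1) * s - t)]
    nlinarith [mul_nonneg (sub_nonneg.2 hk) (sq_nonneg s)]
  have hε1 : ε ≤ 3 / 2 := by linarith
  have hs0 : 0 ≤ (1 - ε / 2) * s ^ 2 := mul_nonneg (by linarith) (sq_nonneg s)
  have triv : u ^ 2 ≤ (u + s + s ^ 2 / 2) ^ 2 →
      1 / 2 * (κ / (κ + 1)) * u ^ 2 ≤ (1 - ε / 2) * s ^ 2 + 1 / 2 * (u + s + s ^ 2 / 2) ^ 2 := by
    intro h
    have : κ / (κ + 1) * u ^ 2 ≤ 1 * u ^ 2 := mul_le_mul_of_nonneg_right hω1 (sq_nonneg u)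
    linarith
  rcases le_or_gt 0 u with hu0 | hu0
  · rcases le_or_gt 0 (s + s ^ 2 / 2) with hJ | hJ
    · apply triv
      have : u + s + s ^ 2 / 2 = u + (s + s ^ 2 / 2) := by ring
      rw [this]
      nlinarith
    · set j := -(s + s ^ 2 / 2) with hj
      have hj0 : 0 < j := by rw [hj]; linarith
      have hsn : s < 0 := by nlinarith [sq_nonneg s]
      have hjs : j ≤ -s := by rw [hj]; nlinarith [sq_nonneg s]
      have hj2 : j ^ 2 ≤ s ^ 2 := by nlinarith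
      have h1 := key (2 - ε) u j (by linarith)
      have h2 : (u + s + s ^ 2 / 2) ^ 2 = (u - j) ^ 2 := by rw [hj]; ring
      rw [h2]
      have h3 : (2 - ε) * j ^ 2 ≤ (2 - ε) * s ^ 2 := mul_le_mul_of_nonneg_left hj2 (by linarith)
      linarith
  · rcases le_or_gt s 0 with hs | hs
    · rcases le_or_gt (-2) s with hs2 | hs2
      · apply triv
        have hJ : s + s ^ 2 / 2 ≤ 0 := by nlinarith
        have : u + s + s ^ 2 / 2 = u + (s + s ^ 2 / 2) := by ring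
        rw [this]
        nlinarith
      · have h4 : 4 ≤ s ^ 2 := by nlinarith
        have h5 : (1 - ε / 2) * 4 ≤ (1 - ε / 2) * s ^ 2 :=
          mul_le_mul_of_nonneg_left h4 (by linarith)
        have h6 : u ^ 2 ≤ (2 - ε) ^ 2 := by nlinarith
        have h7 : κ / (κ + 1) * u ^ 2 ≤ 1 * u ^ 2 :=
          mul_le_mul_of_nonneg_right hω1 (sq_nonneg u)
        have h8 : 0 ≤ (u + s + s ^ 2 / 2) ^ 2 := sq_nonneg _
        nlinarith
    · set t := -u with ht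
      have h1 := key (2 - ε - t) t s (by rw [ht]; linarith)
      have h2 : (t - s) ^ 2 - t * s ^ 2 ≤ (u + s + s ^ 2 / 2) ^ 2 := by
        have : (u + s + s ^ 2 / 2) ^ 2 = (t - s) ^ 2 - t * s ^ 2 + s ^ 3 + s ^ 4 / 4 := by
          rw [ht]; ring
        rw [this]
        have : 0 ≤ s ^ 3 := by positivity
        have : 0 ≤ s ^ 4 := by positivity
        linarith
      have h3 : u ^ 2 = t ^ 2 := by rw [ht]; ring
      rw [h3]
      linarith

end Q94.LC
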