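import Pool.Agent.W366.SR.Rog
import Pool.Agent.W63.SR.Pars

/-! Taylor coefficients of products, compositions, and the contraction inequality. -/

set_option autoImplicit false

namespace Q94.LC

open Metric Set Filter Topology Polynomial Pool.Agent.W769.SR Pool.Agent.W366.SR.Rog

/-- `f` agrees with the polynomial `P` up to the order `N` at `0` -/
def Agree (N : ℕ) (f : ℂ → ℂ) (P : ℂ[X]) : Prop :=
  ∃ F : ℂ → ℂ, AnalyticAt ℂ F 0 ∧ f =ᶠ[𝓝 0] fun z => P.eval z + z ^ N * F z

lemma analytic_eval (P : ℂ[X]) : AnalyticAt ℂ (fun z => P.eval z) 0 := by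
  have e : (fun z : ℂ => P.eval z) = fun z => Polynomial.aeval z P := by
    funext z; rw [Polynomial.coe_aeval_eq_eval]
  rw [e]
  exact analyticAt_id.aeval_polynomial _

lemma iteratedDeriv_eval (P : ℂ[X]) (m : ℕ) :
    iteratedDeriv m (fun z => P.eval z) = fun z => (derivative^[m] P).eval z := by
  induction m with
  | zero => simp
  | succ m ih =>
    rw [iteratedDeriv_succ, ih]
    funext z
    rw [Polynomial.deriv, Function.iterate_succ', Function.comp_apply]

lemma co_eval (P : ℂ[X]) (m : ℕ) : co (fun z => P.eval z) m = P.coeff m := by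
  unfold co
  rw [iteratedDeriv_eval]
  simp only
  rw [← Polynomial.coeff_zero_eq_eval_zero, Polynomial.coeff_iterate_derivative, zero_add,
    Nat.descFactorial_self, nsmul_eq_mul]
  have : (m.factorial : ℂ) ≠ 0 := by exact_mod_cast m.factorial_ne_zero
  field_simp

lemma Agree.co_eq {N : ℕ} {f : ℂ → ℂ} {P : ℂ[X]} (h : Agree N f P) {m : ℕ} (hm : m < N) :
    co f m = P.coeff m := by
  obtain ⟨F, hF, hf⟩ := h
  have hP := analytic_eval P
  have hD : AnalyticAt ℂ (fun z => z ^ N * F z) 0 := (analyticAt_id.pow N).mul hF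
  have hord : ∀ i < N, iteratedDeriv i (fun z => z ^ N * F z) 0 = 0 := by
    rw [← natCast_le_analyticOrderAt_iff_iteratedDeriv_eq_zero hD, natCast_le_analyticOrderAt hD]
    refine ⟨F, hF, ?_⟩
    filter_upwards with z
    rw [sub_zero, smul_eq_mul]
  rw [← co_eval P m]
  unfold co
  rw [hf.iteratedDeriv_eq m, iteratedDeriv_fun_add hP.contDiffAt hD.contDiffAt, hord m hm,
    add_zero]

lemma agree_of_analytic {f : ℂ → ℂ} (hf : AnalyticAt ℂ f 0) (N : ℕ) : Agree N f (tp f N) := by
  obtain ⟨F, hF, hfF⟩ := hf.exists_eventuallyEq_sum_add_pow_mul N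
  refine ⟨F, hF, ?_⟩
  filter_upwards [hfF] with z hz
  simp only [hz, tp_eval, smul_eq_mul]

lemma agree_poly (N : ℕ) (P : ℂ[X]) : Agree N (fun z => P.eval z) P :=
  ⟨fun _ => 0, analyticAt_const, by filter_upwards with z; simp⟩

lemma Agree.mul {N : ℕ} {f g : ℂ → ℂ} {P Q : ℂ[X]} (hf : Agree N f P) (hg : Agree N g Q) :
    Agree N (fun z => f z * g z) (P * Q) := by
  obtain ⟨F, hF, hf⟩ := hf
  obtain ⟨G, hG, hg⟩ := hg
  refine ⟨fun z => P.eval z * G z + F z * Q.eval z + z ^ N * F z * G z,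
    ((analytic_eval P).mul hG).add (hF.mul (analytic_eval Q)) |>.add
      (((analyticAt_id.pow N).mul hF).mul hG), ?_⟩
  filter_upwards [hf, hg] with z h1 h2
  rw [h1, h2, eval_mul]
  ring

lemma Agree.add {N : ℕ} {f g : ℂ → ℂ} {P Q : ℂ[X]} (hf : Agree N f P) (hg : Agree N g Q) :
    Agree N (fun z => f z + g z) (P + Q) := by
  obtain ⟨F, hF, hf⟩ := hf
  obtain ⟨G, hG, hg⟩ := hg
  refine ⟨fun z => F z + G z, hF.add hG, ?_⟩
  filter_upwards [hf, hg] with z h1 h2
  rw [h1, h2, eval_add]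
  ring

lemma Agree.pow {N : ℕ} {f : ℂ → ℂ} {P : ℂ[X]} (hf : Agree N f P) (l : ℕ) :
    Agree N (fun z => f z ^ l) (P ^ l) := by
  induction l with
  | zero =>
    have := agree_poly N (1 : ℂ[X])
    simpa using this
  | succ l ih =>
    have := ih.mul hf
    simpa only [pow_succ] using this

lemma Agree.comp_poly {N : ℕ} {f : ℂ → ℂ} {P : ℂ[X]} (hf : Agree N f P) (Q : ℂ[X]) :
    Agree N (fun z => Q.eval (f z)) (Q.comp P) := by
  induction Q using Polynomial.induction_on' with
  | add p q hp hq =>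
    have := hp.add hq
    simpa only [eval_add, add_comp] using this
  | monomial l a =>
    have := (agree_poly N (C a)).mul (hf.pow l)
    simpa only [eval_monomial, monomial_comp, eval_C] using this

/-- the coefficients of `z f'` -/
lemma co_mul_deriv {f : ℂ → ℂ} (hf : AnalyticAt ℂ f 0) (n : ℕ) :
    co (fun z => z * deriv f z) n = n * co f n := by
  obtain ⟨F, hF, hfF⟩ := agree_of_analytic hf (n + 1)
  have hag : Agree (n + 1) (fun z => z * deriv f z) (X * derivative (tp f (n + 1))) := by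
    refine ⟨fun z => ((n + 1 : ℕ) : ℂ) * F z + z * deriv F z,
      (analyticAt_const.mul hF).add (analyticAt_id.mul hF.deriv), ?_⟩
    have hFa := hF.eventually_analyticAt
    filter_upwards [hfF.eventuallyEq_nhds, hFa] with z hz hFz
    rw [hz.deriv_eq]
    have h1 : HasDerivAt (fun z => (tp f (n + 1)).eval z + z ^ (n + 1) * F z)
        ((derivative (tp f (n + 1))).eval z + (((n + 1 : ℕ) : ℂ) * z ^ n * F z
          + z ^ (n + 1) * deriv F z)) z := by
      refine ((tp f (n + 1)).hasDerivAt z).add ?_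
      have h2 := (hasDerivAt_pow (n + 1) z).fun_mul hFz.differentiableAt.hasDerivAt
      rw [Nat.add_sub_cancel] at h2
      exact h2
    rw [h1.deriv, eval_mul, eval_X]
    ring
  rw [hag.co_eq (Nat.lt_succ_self n)]
  have h3 : (X * derivative (tp f (n + 1))).coeff n = n * (tp f (n + 1)).coeff n := by
    cases n with
    | zero => simp
    | succ n =>
      rw [Polynomial.coeff_X_mul, Polynomial.coeff_derivative]
      push_cast
      ring
  rw [h3, tp_coeff, if_pos (Nat.lt_succ_self n)]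

/-- the coefficients of a rotated function -/
lemma co_rot {f : ℂ → ℂ} (hf : AnalyticAt ℂ f 0) (κ : ℂ) (n : ℕ) :
    co (fun z => f (κ * z)) n = κ ^ n * co f n := by
  obtain ⟨F, hF, hfF⟩ := agree_of_analytic hf (n + 1)
  have hag : Agree (n + 1) (fun z => f (κ * z)) ((tp f (n + 1)).comp (C κ * X)) := by
    have hlin : AnalyticAt ℂ (fun z : ℂ => κ * z) 0 := analyticAt_const.mul analyticAt_id
    refine ⟨fun z => κ ^ (n + 1) * F (κ * z), analyticAt_const.mul ?_, ?_⟩
    · have : AnalyticAt ℂ F ((fun z : ℂ => κ * z) 0) := by simpa using hF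
      exact this.comp hlin
    · have ht : Tendsto (fun z : ℂ => κ * z) (𝓝 0) (𝓝 0) := by
        have := hlin.continuousAt.tendsto
        simpa using this
      filter_upwards [ht.eventually hfF] with z hz
      rw [hz, eval_comp, eval_mul, eval_C, eval_X]
      ring
  rw [hag.co_eq (Nat.lt_succ_self n), Polynomial.comp_C_mul_X_coeff, tp_coeff,
    if_pos (Nat.lt_succ_self n)]
  ring

/-- multiplication by a self-map of the disc is a contraction -/
lemma contr {ω : ℂ → ℂ} (hω : SelfMap ω) (N D : ℕ) (φ : ℂ[X]) (hφ : ∀ k, D ≤ k → φ.coeff k = 0) :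
    ∑ m ∈ Finset.range N, ‖(tp ω N * φ).coeff m‖ ^ 2 ≤ ∑ k ∈ Finset.range D, ‖φ.coeff k‖ ^ 2 := by
  have hωa : AnalyticAt ℂ ω 0 := hω.diff.analyticAt (ball_mem_nhds _ one_pos)
  have hco : ∀ m < N, co (fun z => ω z * φ.eval z) m = (tp ω N * φ).coeff m := fun m hm =>
    ((agree_of_analytic hωa N).mul (agree_poly N φ)).co_eq hm
  have hdiff : DifferentiableOn ℂ (fun z => ω z * φ.eval z) (ball 0 1) :=
    hω.diff.mul φ.differentiable.differentiableOn
  have hφd : DifferentiableOn ℂ (fun z => φ.eval z) (ball 0 1) := φ.differentiable.differentiableOn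
  have hkey : ∀ r : ℝ, 0 < r → r < 1 →
      ∑ m ∈ Finset.range N, ‖(tp ω N * φ).coeff m‖ ^ 2 * r ^ (2 * m)
        ≤ ∑ k ∈ Finset.range D, ‖φ.coeff k‖ ^ 2 * r ^ (2 * k) := by
    intro r hr0 hr1
    have hs1 := Pool.Agent.W63.SR.Pars.main _ 1 r hr0 hr1 hdiff
    have hs2 := Pool.Agent.W63.SR.Pars.main _ 1 r hr0 hr1 hφd
    have h1 : ∑ m ∈ Finset.range N, ‖(tp ω N * φ).coeff m‖ ^ 2 * r ^ (2 * m)
        ≤ av r (fun z => ‖ω z * φ.eval z‖ ^ 2) := by
      have e : ∑ m ∈ Finset.range N, ‖(tp ω N * φ).coeff m‖ ^ 2 * r ^ (2 * m)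
          = ∑ m ∈ Finset.range N, ‖co (fun z => ω z * φ.eval z) m‖ ^ 2 * r ^ (2 * m) :=
        Finset.sum_congr rfl fun m hm => by rw [hco m (Finset.mem_range.1 hm)]
      rw [e]
      exact sum_le_hasSum _ (fun k _ => by positivity) hs1
    have h2 : av r (fun z => ‖φ.eval z‖ ^ 2)
        = ∑ k ∈ Finset.range D, ‖φ.coeff k‖ ^ 2 * r ^ (2 * k) := by
      refine hs2.unique ?_
      have : ∑ k ∈ Finset.range D, ‖φ.coeff k‖ ^ 2 * r ^ (2 * k)
          = ∑ k ∈ Finset.range D, ‖co (fun z => φ.eval z) k‖ ^ 2 * r ^ (2 * k) :=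
        Finset.sum_congr rfl fun k _ => by rw [co_eval]
      rw [this]
      refine hasSum_sum_of_ne_finset_zero fun k hk => ?_
      rw [co_eval, hφ k (by rw [Finset.mem_range] at hk; omega)]
      simp
    have h3 : av r (fun z => ‖ω z * φ.eval z‖ ^ 2) ≤ av r (fun z => ‖φ.eval z‖ ^ 2) := by
      unfold av
      have hsub : ∀ θ : ℝ, circleMap 0 r θ ∈ ball (0 : ℂ) 1 := fun θ => by
        rw [mem_ball_zero_iff, norm_circleMap_zero, abs_of_pos hr0]; exact hr1
      have hcirc : ∀ z ∈ sphere (0 : ℂ) |r|, z ∈ ball (0 : ℂ) 1 := fun z hz => by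
        rw [mem_sphere_zero_iff_norm, abs_of_pos hr0] at hz
        rw [mem_ball_zero_iff, hz]; exact hr1
      refine Real.circleAverage_mono ?_ ?_ ?_
      · refine ContinuousOn.circleIntegrable' ?_
        exact ((hdiff.continuousOn.mono hcirc).norm.pow 2)
      · refine ContinuousOn.circleIntegrable' ?_
        exact ((hφd.continuousOn.mono hcirc).norm.pow 2)
      · intro z hz
        have hz1 := hω.maps (hcirc z hz)
        rw [mem_ball_zero_iff] at hz1
        rw [norm_mul, mul_pow]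
        have : ‖ω z‖ ^ 2 ≤ 1 := pow_le_one₀ (norm_nonneg _) hz1.le
        nlinarith [sq_nonneg ‖φ.eval z‖]
    rw [← h2]
    exact h1.trans h3
  have hc : ∀ (M : ℕ) (a : ℕ → ℝ), Tendsto (fun r : ℝ => ∑ k ∈ Finset.range M, a k * r ^ (2 * k))
      (𝓝[<] 1) (𝓝 (∑ k ∈ Finset.range M, a k)) := by
    intro M a
    have hcont : Continuous fun r : ℝ => ∑ k ∈ Finset.range M, a k * r ^ (2 * k) := by
      fun_prop
    have := hcont.tendsto 1
    simp only [one_pow, mul_one] at this
    exact this.mono_left nhdsWithin_le_nhds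
  refine le_of_tendsto_of_tendsto (hc N _) (hc D _) ?_
  filter_upwards [Ioo_mem_nhdsLT one_pos] with r hr
  exact hkey r hr.1 hr.2

end Q94.LC
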