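import Pool.Agent.Q94.LC.Sym

/-! The main inequality for polynomials with frequencies `1, …, n - 1`. -/

set_option autoImplicit false

namespace Q94.LC

open Finset Complex Polynomial

lemma re_rel {S c : ℂ} (hc : c ^ 2 = -1) (h : S = c * (starRingEnd ℂ) S) :
    ‖S‖ ^ 2 = 2 * S.re ^ 2 := by
  have h1 : c = Complex.I ∨ c = -Complex.I := by
    have : (c - Complex.I) * (c + Complex.I) = 0 := by
      have : (c - Complex.I) * (c + Complex.I) = c ^ 2 - Complex.I ^ 2 := by ring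
      rw [this, hc, Complex.I_sq]; ring
    rcases mul_eq_zero.1 this with h | h
    · left; exact sub_eq_zero.1 h
    · right; exact eq_neg_of_add_eq_zero_left h
  have h2 : S.re ^ 2 = S.im ^ 2 := by
    rcases h1 with rfl | rfl
    · have := congrArg Complex.re h
      simp at this
      rw [this]
    · have := congrArg Complex.re h
      simp at this
      rw [this]; ring
  rw [← Complex.normSq_eq_norm_sq, Complex.normSq_apply]
  nlinarith

lemma re_cross {S A c : ℂ} (hc : c ^ 2 = -1) (h : S = c * (starRingEnd ℂ) S)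
    (h' : A = -c * (starRingEnd ℂ) A) : ‖S + A‖ ^ 2 = ‖S‖ ^ 2 + ‖A‖ ^ 2 := by
  have h1 : c = Complex.I ∨ c = -Complex.I := by
    have : (c - Complex.I) * (c + Complex.I) = 0 := by
      have : (c - Complex.I) * (c + Complex.I) = c ^ 2 - Complex.I ^ 2 := by ring
      rw [this, hc, Complex.I_sq]; ring
    rcases mul_eq_zero.1 this with h | h
    · left; exact sub_eq_zero.1 h
    · right; exact eq_neg_of_add_eq_zero_left h
  have h2 : S.re * A.re + S.im * A.im = 0 := by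
    rcases h1 with rfl | rfl
    · have e1 := congrArg Complex.re h
      have e2 := congrArg Complex.re h'
      simp at e1 e2
      rw [e1, e2]; ring
    · have e1 := congrArg Complex.re h
      have e2 := congrArg Complex.re h'
      simp at e1 e2
      rw [e1, e2]; ring
  rw [← Complex.normSq_eq_norm_sq, ← Complex.normSq_eq_norm_sq, ← Complex.normSq_eq_norm_sq,
    Complex.normSq_apply, Complex.normSq_apply, Complex.normSq_apply, Complex.add_re,
    Complex.add_im]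
  nlinarith

lemma Jp_energy {n : ℕ} {U : ℂ[X]} (h : Fr n U) :
    ∑ k ∈ range n, ‖(Jp n U).coeff k‖ ^ 2 = ∑ k ∈ range n, ‖U.coeff k‖ ^ 2 := by
  have hz : ∀ (V : ℂ[X]), Fr n V → ∑ k ∈ range n, ‖V.coeff k‖ ^ 2
      = ∑ k ∈ Ico 1 n, ‖V.coeff k‖ ^ 2 := fun V hV => by
    rcases Nat.eq_zero_or_pos n with h0 | h0
    · subst h0; simp
    · rw [Finset.range_eq_Ico, Finset.sum_eq_sum_Ico_succ_bot h0, hV.zero]
      simp
  rw [hz _ (Jp_Fr n U), hz _ h]
  have h4 : ∀ k ∈ Ico 1 n, ‖(Jp n U).coeff k‖ ^ 2 = ‖U.coeff (n - k)‖ ^ 2 := fun k hk => by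
    rw [Jp_coeff, if_pos (Finset.mem_Ico.1 hk), Complex.norm_conj]
  rw [Finset.sum_congr rfl h4]
  refine Finset.sum_nbij' (fun k => n - k) (fun k => n - k) ?_ ?_ ?_ ?_ ?_
  · intro k hk; simp only [Finset.mem_Ico] at hk ⊢; omega
  · intro k hk; simp only [Finset.mem_Ico] at hk ⊢; omega
  · intro k hk; simp only [Finset.mem_Ico] at hk; omega
  · intro k hk; simp only [Finset.mem_Ico] at hk; omega
  · intro k hk; rfl

/-- the coefficient `n` of the square -/
lemma sq_coeff {n : ℕ} {U : ℂ[X]} (h : Fr n U) :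
    ((U * U).coeff n).re = ∑ k ∈ range n, (U.coeff k * (starRingEnd ℂ) ((Jp n U).coeff k)).re := by
  rw [Polynomial.coeff_mul, Finset.Nat.sum_antidiagonal_eq_sum_range_succ_mk,
    Finset.sum_range_succ, h.high n le_rfl, zero_mul, add_zero, Complex.re_sum]
  refine Finset.sum_congr rfl fun k hk => ?_
  have hk' := Finset.mem_range.1 hk
  rcases Nat.eq_zero_or_pos k with h0 | h0
  · subst h0; rw [h.zero]; simp
  · rw [Jp_coeff, if_pos (by omega), Complex.conj_conj]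

/-- the main inequality -/
theorem mainIneq {n : ℕ} (hn : 0 < n) {U : ℂ[X]} (h : Fr n U)
    (ha : ∑ k ∈ range n, ‖U.coeff k‖ ^ 2 ≤ 3 / 10) :
    5 / 58 * (∑ k ∈ range n, ‖U.coeff k‖ ^ 2 - ((U * U).coeff n).re ^ 2)
      ≤ (∑ k ∈ range n, ‖U.coeff k‖ ^ 2 - ((U * U).coeff n).re)
        + ∑ k ∈ range n, ‖(U + U * Jp n U).coeff k‖ ^ 2 := by
  have hn0 : n ≠ 0 := hn.ne'
  have hnR : (0 : ℝ) < n := by exact_mod_cast hn
  set J := Jp n U with hJ
  have hJF : Fr n J := Jp_Fr n U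
  set S : ℂ[X] := C (1 / 2) * (U + J) with hS
  set A : ℂ[X] := C (1 / 2) * (J - U) with hA
  have hSF : Fr n S := ⟨by rw [hS, coeff_C_mul, coeff_add, h.zero, hJF.zero]; simp,
    fun k hk => by rw [hS, coeff_C_mul, coeff_add, h.high k hk, hJF.high k hk]; simp⟩
  have hAF : Fr n A := ⟨by rw [hA, coeff_C_mul, coeff_sub, h.zero, hJF.zero]; simp,
    fun k hk => by rw [hA, coeff_C_mul, coeff_sub, h.high k hk, hJF.high k hk]; simp⟩
  have hconj2 : (starRingEnd ℂ) (1 / 2 : ℂ) = 1 / 2 := by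
    have : (1 / 2 : ℂ) = ((1 / 2 : ℝ) : ℂ) := by push_cast; ring
    rw [this, Complex.conj_ofReal]
  have hJS : Jp n S = S := by
    ext k
    rw [Jp_coeff]
    split_ifs with hk
    · rw [hS, coeff_C_mul, coeff_C_mul, coeff_add, coeff_add, map_mul, map_add, hconj2, hJ,
        Jp_coeff, Jp_coeff, if_pos (by omega), if_pos hk, Complex.conj_conj,
        show n - (n - k) = k by omega]
      ring
    · rcases Nat.eq_zero_or_pos k with h0 | h0
      · rw [h0, hSF.zero]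
      · rw [hSF.high k (by omega)]
  set a := ∑ k ∈ range n, ‖U.coeff k‖ ^ 2 with haa
  set q := ((U * U).coeff n).re with hq
  set W := ∑ k ∈ range n, ‖(U + U * J).coeff k‖ ^ 2 with hW
  set X₀ := ∑ k ∈ range n, ‖S.coeff k‖ ^ 2 with hX₀
  set aI := ∑ k ∈ range n, ‖A.coeff k‖ ^ 2 with haI
  have ha0 : 0 ≤ a := Finset.sum_nonneg fun k _ => sq_nonneg _
  have hW0 : 0 ≤ W := Finset.sum_nonneg fun k _ => sq_nonneg _
  have hX0 : 0 ≤ X₀ := Finset.sum_nonneg fun k _ => sq_nonneg _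
  have haI0 : 0 ≤ aI := Finset.sum_nonneg fun k _ => sq_nonneg _
  have hJe : ∑ k ∈ range n, ‖J.coeff k‖ ^ 2 = a := Jp_energy h
  have hqs : q = ∑ k ∈ range n, (U.coeff k * (starRingEnd ℂ) (J.coeff k)).re := sq_coeff h
  -- X and aI
  have hXe : X₀ = (a + q) / 2 := by
    have h1 : ∀ k ∈ range n, ‖S.coeff k‖ ^ 2
        = 1 / 4 * ‖U.coeff k‖ ^ 2 + 1 / 4 * ‖J.coeff k‖ ^ 2
          + 1 / 2 * (U.coeff k * (starRingEnd ℂ) (J.coeff k)).re := fun k _ => by
      rw [hS, coeff_C_mul, coeff_add, norm_mul, mul_pow, ← Complex.normSq_eq_norm_sq (_ + _),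
        Complex.normSq_add, Complex.normSq_eq_norm_sq, Complex.normSq_eq_norm_sq]
      norm_num
      ring
    rw [hX₀, Finset.sum_congr rfl h1, Finset.sum_add_distrib, Finset.sum_add_distrib,
      ← Finset.mul_sum, ← Finset.mul_sum, ← Finset.mul_sum, hJe, ← hqs, ← haa]
    ring
  have haIe : aI = (a - q) / 2 := by
    have h1 : ∀ k ∈ range n, ‖A.coeff k‖ ^ 2
        = 1 / 4 * ‖U.coeff k‖ ^ 2 + 1 / 4 * ‖J.coeff k‖ ^ 2
          - 1 / 2 * (U.coeff k * (starRingEnd ℂ) (J.coeff k)).re := fun k _ => by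
      rw [hA, coeff_C_mul, coeff_sub, norm_mul, mul_pow, norm_sub_rev,
        ← Complex.normSq_eq_norm_sq (_ - _),
        Complex.normSq_sub, Complex.normSq_eq_norm_sq, Complex.normSq_eq_norm_sq]
      norm_num
      ring
    rw [haI, Finset.sum_congr rfl h1, Finset.sum_sub_distrib, Finset.sum_add_distrib,
      ← Finset.mul_sum, ← Finset.mul_sum, ← Finset.mul_sum, hJe, ← hqs, ← haa]
    ring
  have hq2 : 0 ≤ q ^ 2 := sq_nonneg q
  rcases le_or_gt (5 / 58 * a / 2) aI with hcase | hcase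
  · nlinarith
  -- the grid
  set ρ := rt (n + n) with hρ
  have hρ1 : ‖ρ‖ = 1 := norm_rt _
  set Z : ℕ → ℂ := fun j => pt (n + n) ρ j with hZ
  have hZ1 : ∀ j, ‖Z j‖ = 1 := fun j => norm_pt _ hρ1 j
  have hZn : ∀ j, (Z j ^ n) ^ 2 = -1 := fun j => by
    have h1 : Z j ^ (n + n) = -1 := by
      simp only [hZ]
      rw [pt_pow (n + n) (by omega), hρ, rt_pow (by omega)]
    rw [← h1, ← pow_mul]; congr 1; ring
  have hSZ : ∀ j, S.eval (Z j) = Z j ^ n * (starRingEnd ℂ) (S.eval (Z j)) := fun j => by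
    have := Jp_eval hSF (hZ1 j)
    rwa [hJS] at this
  have hAZ : ∀ j, A.eval (Z j) = -(Z j ^ n) * (starRingEnd ℂ) (A.eval (Z j)) := fun j => by
    have e1 := Jp_eval h (hZ1 j)
    have e2 := Jp_eval hJF (hZ1 j)
    rw [hJ, Jp_Jp h, ← hJ] at e2
    rw [← hJ] at e1
    have e3 : A.eval (Z j) = 1 / 2 * (J.eval (Z j) - U.eval (Z j)) := by
      rw [hA, eval_mul, eval_C, eval_sub]
    rw [e3, map_mul, map_sub, hconj2]
    linear_combination (1 / 2 : ℂ) * e1 - (1 / 2 : ℂ) * e2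
  have hV : ∀ j, J.eval (Z j) = S.eval (Z j) + A.eval (Z j) := fun j => by
    rw [hS, hA, eval_mul, eval_mul, eval_C, eval_add, eval_sub]; ring
  set s : ℕ → ℝ := fun j => 2 * (A.eval (Z j)).re with hs
  set u : ℕ → ℝ := fun j => 2 * (S.eval (Z j)).re + ‖S.eval (Z j)‖ ^ 2 - a with hu
  have hAn : ∀ j, ‖A.eval (Z j)‖ ^ 2 = 2 * (A.eval (Z j)).re ^ 2 := fun j =>
    re_rel (c := -(Z j ^ n)) (by rw [neg_sq]; exact hZn j) (hAZ j)
  have hSn : ∀ j, ‖S.eval (Z j)‖ ^ 2 = 2 * (S.eval (Z j)).re ^ 2 := fun j =>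
    re_rel (hZn j) (hSZ j)
  have hh : ∀ j, 2 * (J.eval (Z j)).re + ‖J.eval (Z j)‖ ^ 2 - a = u j + s j + s j ^ 2 / 2 :=
    fun j => by
    rw [hV j, re_cross (hZn j) (hSZ j) (hAZ j), Complex.add_re, hAn j]
    simp only [hu, hs]
    ring
  have hub : ∀ j, -(1 / 2 + a) ≤ u j := fun j => by
    simp only [hu]
    rw [hSn j]
    nlinarith [sq_nonneg (2 * (S.eval (Z j)).re + 1)]
  -- sums
  have hsum_s : ∑ j ∈ range (n + n), s j ^ 2 = 4 * n * aI := by
    have h1 : ∀ j ∈ range (n + n), s j ^ 2 = 2 * ‖ev (n + n) A.coeff (pt (n + n) ρ j)‖ ^ 2 :=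
      fun j _ => by
      rw [← eval_ev (fun k hk => hAF.high k (by omega))]
      have := hAn j
      simp only [hZ] at this
      rw [this]
      simp only [hs, hZ]
      ring
    rw [Finset.sum_congr rfl h1, ← Finset.mul_sum, parseval (n + n) (by omega) hρ1,
      Finset.sum_range_add]
    have h2 : ∑ k ∈ range n, ‖A.coeff (n + k)‖ ^ 2 = 0 :=
      Finset.sum_eq_zero fun k _ => by rw [hAF.high _ (by omega)]; simp
    rw [h2, ← haI]
    push_cast
    ring
  have hsum_h : ∑ j ∈ range (n + n), (u j + s j + s j ^ 2 / 2) ^ 2 = 4 * n * W := by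
    have h1 := Hpol_grid h a hn hρ1
    rw [← hJ, ← haa, ← hW] at h1
    rw [sub_self] at h1
    have h2 : ∑ j ∈ range (n + n), (u j + s j + s j ^ 2 / 2) ^ 2
        = ∑ j ∈ range (n + n), (2 * (J.eval (pt (n + n) ρ j)).re
          + ‖J.eval (pt (n + n) ρ j)‖ ^ 2 - a) ^ 2 :=
      Finset.sum_congr rfl fun j _ => by rw [← hh j]
    rw [h2, h1]
    ring
  set WS := ∑ k ∈ range n, ‖(S + S * S).coeff k‖ ^ 2 with hWS
  have hsum_u : 4 * n * WS ≤ ∑ j ∈ range (n + n), u j ^ 2 := by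
    have h1 := Hpol_grid hSF a hn hρ1
    rw [hJS, ← hX₀, ← hWS] at h1
    have h2 : ∑ j ∈ range (n + n), u j ^ 2
        = ∑ j ∈ range (n + n), (2 * (S.eval (pt (n + n) ρ j)).re
          + ‖S.eval (pt (n + n) ρ j)‖ ^ 2 - a) ^ 2 := rfl
    rw [h2, h1]
    have : 0 ≤ (n : ℝ) * (X₀ - a) ^ 2 := by positivity
    nlinarith
  have hsym : 61 / 400 * X₀ ≤ WS := symIneq hn hSF hJS
  -- parameters
  set ε := 5 / 58 * (1 + 2 * X₀) with hε
  set κ := 3 / 2 - a - ε with hκ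
  have hXa : X₀ + aI = a := by rw [hXe, haIe]; ring
  have hXle : X₀ ≤ 3 / 10 := by linarith
  have hε0 : 0 ≤ ε := by rw [hε]; positivity
  have hεle : ε ≤ 4 / 29 := by rw [hε]; linarith
  have hκ0 : 0 < κ := by rw [hκ]; linarith
  have hpw : ∀ j, 1 / 2 * (κ / (κ + 1)) * u j ^ 2
      ≤ (1 - ε / 2) * s j ^ 2 + 1 / 2 * (u j + s j + s j ^ 2 / 2) ^ 2 := fun j =>
    pointwise (u j) (s j) κ ε hε0 hκ0 (by rw [hκ]; linarith) (by
      have := hub j
      rw [hκ]; linarith)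
  have hsum : 1 / 2 * (κ / (κ + 1)) * ∑ j ∈ range (n + n), u j ^ 2
      ≤ (1 - ε / 2) * (4 * n * aI) + 1 / 2 * (4 * n * W) := by
    rw [← hsum_s, ← hsum_h, Finset.mul_sum, Finset.mul_sum, Finset.mul_sum,
      ← Finset.sum_add_distrib]
    exact Finset.sum_le_sum fun j _ => hpw j
  have hω0 : 0 ≤ κ / (κ + 1) := by positivity
  have hkey : κ / (κ + 1) * (61 / 400 * X₀) + ε * aI ≤ 2 * aI + W := by
    have h1 : 1 / 2 * (κ / (κ + 1)) * (4 * n * WS)
        ≤ (1 - ε / 2) * (4 * n * aI) + 1 / 2 * (4 * n * W) :=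
      (mul_le_mul_of_nonneg_left hsum_u (by positivity)).trans hsum
    have h2 : κ / (κ + 1) * (61 / 400 * X₀) ≤ κ / (κ + 1) * WS :=
      mul_le_mul_of_nonneg_left hsym hω0
    have h3 : (2 * n : ℝ) * (κ / (κ + 1) * WS) ≤ 2 * n * ((2 - ε) * aI + W) := by
      calc (2 * n : ℝ) * (κ / (κ + 1) * WS) = 1 / 2 * (κ / (κ + 1)) * (4 * n * WS) := by ring
        _ ≤ _ := h1
        _ = _ := by ring
    have h4 := le_of_mul_le_mul_left h3 (by positivity : (0 : ℝ) < 2 * n)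
    linarith
  -- ω (61/400) X ≥ κ₀ (X - X²)
  have hX1 : a * (111 / 116) ≤ X₀ := by linarith
  have hκlow : 3 / 2 - 5 / 58 - X₀ * (116 / 111 + 5 / 29) ≤ κ := by
    rw [hκ, hε]; linarith
  have hω : 5 / 58 * (1 - X₀) ≤ κ / (κ + 1) * (61 / 400) := by
    rw [show κ / (κ + 1) * (61 / 400) = κ * (61 / 400) / (κ + 1) by ring,
      le_div_iff₀ (by linarith)]
    have ht : 0 ≤ 61 / 400 - 5 / 58 * (1 - X₀) := by linarith
    have h5 := mul_le_mul_of_nonneg_right hκlow ht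
    nlinarith [mul_nonneg hX0 (sub_nonneg.2 hXle)]
  have h6 : 5 / 58 * (X₀ - X₀ ^ 2) ≤ κ / (κ + 1) * (61 / 400 * X₀) := by
    have := mul_le_mul_of_nonneg_right hω hX0
    nlinarith
  have h7 : a - q ^ 2 ≤ X₀ - X₀ ^ 2 + aI * (1 + 2 * X₀) := by
    have hqe : q = X₀ - aI := by rw [hXe, haIe]; ring
    rw [hqe, ← hXa]
    nlinarith [sq_nonneg aI]
  have h8 : a - q = 2 * aI := by rw [haIe]; ring
  rw [h8]
  have h9 : ε * aI = 5 / 58 * (aI * (1 + 2 * X₀)) := by rw [hε]; ring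
  rw [h9] at hkey
  linarith

end Q94.LC
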