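import Mathlib

/-! Equidistributed points on the circle: orthogonality and Parseval. -/

set_option autoImplicit false

namespace Q94.LC

open Finset Complex Polynomial

/-- `M` equidistributed points on the circle -/
noncomputable def pt (M : ℕ) (ρ : ℂ) (j : ℕ) : ℂ :=
  ρ * Complex.exp (2 * Real.pi * Complex.I / M) ^ j

lemma norm_pt (M : ℕ) {ρ : ℂ} (hρ : ‖ρ‖ = 1) (j : ℕ) : ‖pt M ρ j‖ = 1 := by
  unfold pt
  rw [norm_mul, hρ, one_mul, norm_pow]
  have : ‖Complex.exp (2 * Real.pi * Complex.I / M)‖ = 1 := by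
    have h : (2 * Real.pi * Complex.I / M : ℂ) = ((2 * Real.pi / M : ℝ) : ℂ) * Complex.I := by
      push_cast; ring
    rw [h, Complex.norm_exp_ofReal_mul_I]
  rw [this, one_pow]

lemma pt_pow (M : ℕ) (hM : M ≠ 0) (ρ : ℂ) (j : ℕ) : pt M ρ j ^ M = ρ ^ M := by
  unfold pt
  rw [mul_pow, ← pow_mul, mul_comm j M, pow_mul,
    (Complex.isPrimitiveRoot_exp M hM).pow_eq_one, one_pow, mul_one]

lemma conj_eq_inv {z : ℂ} (hz : ‖z‖ = 1) : (starRingEnd ℂ) z = z⁻¹ := by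
  rw [Complex.inv_def, Complex.normSq_eq_norm_sq, hz]
  simp

lemma mul_conj_one {z : ℂ} (hz : ‖z‖ = 1) : z * (starRingEnd ℂ) z = 1 := by
  rw [Complex.mul_conj, Complex.normSq_eq_norm_sq, hz]; simp

/-- sums of powers -/
lemma sum_pt_pow (M : ℕ) (hM : M ≠ 0) (ρ : ℂ) (k : ℕ) (hk : 0 < k) (hkM : k < M) :
    ∑ j ∈ range M, pt M ρ j ^ k = 0 := by
  set ξ := Complex.exp (2 * Real.pi * Complex.I / M) with hξ
  have hp : IsPrimitiveRoot ξ M := Complex.isPrimitiveRoot_exp M hM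
  have h1 : ∀ j ∈ range M, pt M ρ j ^ k = ρ ^ k * (ξ ^ k) ^ j := fun j _ => by
    unfold pt
    rw [mul_pow, ← hξ, ← pow_mul, ← pow_mul, mul_comm j k]
  rw [Finset.sum_congr rfl h1, ← Finset.mul_sum]
  have h2 : ξ ^ k ≠ 1 := hp.pow_ne_one_of_pos_of_lt hk.ne' hkM
  have h3 : (∑ j ∈ range M, (ξ ^ k) ^ j) * (ξ ^ k - 1) = (ξ ^ k) ^ M - 1 := geom_sum_mul _ _
  have h4 : (ξ ^ k) ^ M = 1 := by
    rw [← pow_mul, mul_comm, pow_mul, hp.pow_eq_one, one_pow]
  rw [h4, sub_self] at h3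
  rcases mul_eq_zero.1 h3 with h5 | h5
  · rw [h5, mul_zero]
  · exact absurd (sub_eq_zero.1 h5) h2

/-- orthogonality -/
lemma orth (M : ℕ) (hM : M ≠ 0) {ρ : ℂ} (hρ : ‖ρ‖ = 1) (k l : ℕ) (hk : k < M) (hl : l < M) :
    ∑ j ∈ range M, pt M ρ j ^ k * (starRingEnd ℂ) (pt M ρ j ^ l) = if k = l then (M : ℂ) else 0 := by
  have hn : ∀ j, ‖pt M ρ j‖ = 1 := norm_pt M hρ
  rcases lt_trichotomy k l with h | h | h
  · rw [if_neg h.ne]
    have h1 : ∀ j ∈ range M, pt M ρ j ^ k * (starRingEnd ℂ) (pt M ρ j ^ l)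
        = (starRingEnd ℂ) (pt M ρ j ^ (l - k)) := fun j _ => by
      have h2 : pt M ρ j ^ l = pt M ρ j ^ k * pt M ρ j ^ (l - k) := by
        rw [← pow_add]; congr 1; omega
      have h3 : pt M ρ j ^ k * (starRingEnd ℂ) (pt M ρ j ^ k) = 1 :=
        mul_conj_one (by rw [norm_pow, hn, one_pow])
      rw [h2, map_mul, ← mul_assoc, h3, one_mul]
    rw [Finset.sum_congr rfl h1, ← map_sum, sum_pt_pow M hM ρ (l - k) (by omega) (by omega), map_zero]
  · subst h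
    rw [if_pos rfl]
    have h1 : ∀ j ∈ range M, pt M ρ j ^ k * (starRingEnd ℂ) (pt M ρ j ^ k) = 1 := fun j _ =>
      mul_conj_one (by rw [norm_pow, hn, one_pow])
    rw [Finset.sum_congr rfl h1]
    simp
  · rw [if_neg h.ne']
    have h1 : ∀ j ∈ range M, pt M ρ j ^ k * (starRingEnd ℂ) (pt M ρ j ^ l)
        = pt M ρ j ^ (k - l) := fun j _ => by
      have h2 : pt M ρ j ^ k = pt M ρ j ^ (k - l) * pt M ρ j ^ l := by
        rw [← pow_add]; congr 1; omega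
      have h3 : pt M ρ j ^ l * (starRingEnd ℂ) (pt M ρ j ^ l) = 1 :=
        mul_conj_one (by rw [norm_pow, hn, one_pow])
      rw [h2, mul_assoc, h3, mul_one]
    rw [Finset.sum_congr rfl h1, sum_pt_pow M hM ρ (k - l) (by omega) (by omega)]

/-- value of a coefficient sequence -/
noncomputable def ev (M : ℕ) (f : ℕ → ℂ) (z : ℂ) : ℂ := ∑ k ∈ range M, f k * z ^ k

lemma coef_of_values (M : ℕ) (hM : M ≠ 0) {ρ : ℂ} (hρ : ‖ρ‖ = 1) (f : ℕ → ℂ) (l : ℕ) (hl : l < M) :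
    ∑ j ∈ range M, ev M f (pt M ρ j) * (starRingEnd ℂ) (pt M ρ j ^ l) = M * f l := by
  unfold ev
  simp only [Finset.sum_mul]
  rw [Finset.sum_comm]
  have h1 : ∀ k ∈ range M, ∑ j ∈ range M, f k * pt M ρ j ^ k * (starRingEnd ℂ) (pt M ρ j ^ l)
      = if k = l then (M : ℂ) * f k else 0 := fun k hk => by
    have : ∀ j ∈ range M, f k * pt M ρ j ^ k * (starRingEnd ℂ) (pt M ρ j ^ l)
        = f k * (pt M ρ j ^ k * (starRingEnd ℂ) (pt M ρ j ^ l)) := fun j _ => by ring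
    rw [Finset.sum_congr rfl this, ← Finset.mul_sum, orth M hM hρ k l (Finset.mem_range.1 hk) hl]
    split_ifs <;> ring
  rw [Finset.sum_congr rfl h1, Finset.sum_ite_eq' (range M) l, if_pos (Finset.mem_range.2 hl)]

/-- Parseval -/
lemma parseval (M : ℕ) (hM : M ≠ 0) {ρ : ℂ} (hρ : ‖ρ‖ = 1) (f : ℕ → ℂ) :
    ∑ j ∈ range M, ‖ev M f (pt M ρ j)‖ ^ 2 = M * ∑ k ∈ range M, ‖f k‖ ^ 2 := by
  have h1 : (∑ j ∈ range M, ev M f (pt M ρ j) * (starRingEnd ℂ) (ev M f (pt M ρ j)))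
      = M * ∑ k ∈ range M, f k * (starRingEnd ℂ) (f k) := by
    have h2 : ∀ j ∈ range M, ev M f (pt M ρ j) * (starRingEnd ℂ) (ev M f (pt M ρ j))
        = ∑ l ∈ range M, (starRingEnd ℂ) (f l)
          * (ev M f (pt M ρ j) * (starRingEnd ℂ) (pt M ρ j ^ l)) := fun j _ => by
      have h3 : (starRingEnd ℂ) (ev M f (pt M ρ j))
          = ∑ l ∈ range M, (starRingEnd ℂ) (f l) * (starRingEnd ℂ) (pt M ρ j ^ l) := by
        simp only [ev, map_sum, map_mul]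
      rw [h3, Finset.mul_sum]
      exact Finset.sum_congr rfl fun l _ => by ring
    rw [Finset.sum_congr rfl h2, Finset.sum_comm, Finset.mul_sum]
    refine Finset.sum_congr rfl fun l hl => ?_
    rw [← Finset.mul_sum, coef_of_values M hM hρ f l (Finset.mem_range.1 hl)]
    ring
  have h4 : ∀ w : ℂ, ((‖w‖ ^ 2 : ℝ) : ℂ) = w * (starRingEnd ℂ) w := fun w => by
    rw [Complex.mul_conj, Complex.normSq_eq_norm_sq]
  have h5 : ((∑ j ∈ range M, ‖ev M f (pt M ρ j)‖ ^ 2 : ℝ) : ℂ)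
      = ((M * ∑ k ∈ range M, ‖f k‖ ^ 2 : ℝ) : ℂ) := by
    push_cast
    rw [show (∑ j ∈ range M, (‖ev M f (pt M ρ j)‖ : ℂ) ^ 2)
      = ∑ j ∈ range M, ev M f (pt M ρ j) * (starRingEnd ℂ) (ev M f (pt M ρ j)) from
      Finset.sum_congr rfl fun j _ => by rw [← h4]; push_cast; rfl, h1]
    congr 1
    exact Finset.sum_congr rfl fun j _ => by rw [← h4]; push_cast; rfl
  exact_mod_cast h5

/-- a polynomial of degree `< M` -/
lemma eval_eq_ev {P : ℂ[X]} {M : ℕ} (h : P.natDegree < M) (z : ℂ) :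
    P.eval z = ev M P.coeff z := by
  rw [Polynomial.eval_eq_sum_range' h]; rfl

lemma eval_ev {P : ℂ[X]} {M : ℕ} (h : ∀ k, M ≤ k → P.coeff k = 0) (z : ℂ) :
    P.eval z = ev M P.coeff z := by
  rcases Nat.eq_zero_or_pos M with hM | hM
  · have : P = 0 := by
      ext k; rw [h k (by omega)]; simp
    subst hM; simp [this, ev]
  · refine eval_eq_ev ?_ z
    by_contra hc
    push Not at hc
    have h1 := h _ hc
    rw [Polynomial.coeff_natDegree, Polynomial.leadingCoeff_eq_zero] at h1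
    rw [h1] at hc
    simp at hc
    omega

/-- folding modulo `n` -/
lemma ev_fold (n : ℕ) (f : ℕ → ℂ) (z τ : ℂ) (hz : z ^ n = τ) :
    ev (n + n) f z = ev n (fun k => f k + τ * f (n + k)) z := by
  unfold ev
  rw [Finset.sum_range_add, ← Finset.sum_add_distrib]
  refine Finset.sum_congr rfl fun k _ => ?_
  rw [pow_add, hz]; ring

lemma ev_fold3 (n : ℕ) (f : ℕ → ℂ) (z τ : ℂ) (hz : z ^ n = τ) :
    ev (n + n + n) f z = ev n (fun k => f k + τ * f (n + k) + τ ^ 2 * f (n + n + k)) z := by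
  unfold ev
  rw [Finset.sum_range_add, Finset.sum_range_add, ← Finset.sum_add_distrib,
    ← Finset.sum_add_distrib]
  refine Finset.sum_congr rfl fun k _ => ?_
  rw [pow_add, pow_add, pow_add, hz]; ring

lemma sum_ev (M : ℕ) (hM : M ≠ 0) {ρ : ℂ} (hρ : ‖ρ‖ = 1) (f : ℕ → ℂ) :
    ∑ j ∈ range M, ev M f (pt M ρ j) = M * f 0 := by
  have := coef_of_values M hM hρ f 0 (by omega)
  simpa using this

end Q94.LC
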