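import Pool.Agent.Q94.LC.Grid

/-! The polynomial `z^n (|1 + V|² - 1 - c)`. -/

set_option autoImplicit false

namespace Q94.LC

open Finset Complex Polynomial

/-- `z^n` times the conjugate of `U` (frequencies `1, …, n - 1`) -/
noncomputable def Jp (n : ℕ) (U : ℂ[X]) : ℂ[X] :=
  ∑ k ∈ Ico 1 n, C ((starRingEnd ℂ) (U.coeff (n - k))) * X ^ k

/-- polynomials with frequencies `1, …, n - 1` -/
structure Fr (n : ℕ) (U : ℂ[X]) : Prop where
  zero : U.coeff 0 = 0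
  high : ∀ k, n ≤ k → U.coeff k = 0

lemma Jp_coeff (n : ℕ) (U : ℂ[X]) (k : ℕ) :
    (Jp n U).coeff k = if 1 ≤ k ∧ k < n then (starRingEnd ℂ) (U.coeff (n - k)) else 0 := by
  unfold Jp
  rw [Polynomial.finsetSum_coeff]
  simp only [Polynomial.coeff_C_mul_X_pow]
  rw [Finset.sum_ite_eq (Ico 1 n) k]
  simp only [Finset.mem_Ico]

lemma Jp_Fr (n : ℕ) (U : ℂ[X]) : Fr n (Jp n U) := by
  constructor
  · rw [Jp_coeff, if_neg (by omega)]
  · intro k hk
    rw [Jp_coeff, if_neg (by omega)]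

lemma Jp_Jp {n : ℕ} {U : ℂ[X]} (h : Fr n U) : Jp n (Jp n U) = U := by
  ext k
  rw [Jp_coeff]
  split_ifs with hk
  · rw [Jp_coeff, if_pos (by omega), show n - (n - k) = k by omega, Complex.conj_conj]
  · rcases Nat.eq_zero_or_pos k with h0 | h0
    · rw [h0, h.zero]
    · rw [h.high k (by omega)]

lemma Fr.eval {n : ℕ} {U : ℂ[X]} (h : Fr n U) (z : ℂ) :
    U.eval z = ∑ k ∈ Ico 1 n, U.coeff k * z ^ k := by
  rw [eval_ev h.high z]
  unfold ev
  rw [Finset.range_eq_Ico]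
  rcases Nat.eq_zero_or_pos n with h0 | h0
  · subst h0; simp
  · rw [Finset.sum_eq_sum_Ico_succ_bot h0, h.zero]
    simp

lemma sum_reflect (n : ℕ) (f : ℕ → ℂ) : ∑ k ∈ Ico 1 n, f (n - k) = ∑ k ∈ Ico 1 n, f k := by
  refine Finset.sum_nbij' (fun k => n - k) (fun k => n - k) ?_ ?_ ?_ ?_ ?_
  · intro k hk; simp only [Finset.mem_Ico] at hk ⊢; omega
  · intro k hk; simp only [Finset.mem_Ico] at hk ⊢; omega
  · intro k hk; simp only [Finset.mem_Ico] at hk; omega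
  · intro k hk; simp only [Finset.mem_Ico] at hk; omega
  · intro k hk; rfl

lemma Jp_eval {n : ℕ} {U : ℂ[X]} (h : Fr n U) {z : ℂ} (hz : ‖z‖ = 1) :
    (Jp n U).eval z = z ^ n * (starRingEnd ℂ) (U.eval z) := by
  rw [(Jp_Fr n U).eval z, h.eval z, map_sum, Finset.mul_sum,
    ← sum_reflect n (fun k => z ^ n * (starRingEnd ℂ) (U.coeff k * z ^ k))]
  refine Finset.sum_congr rfl fun k hk => ?_
  have hk' := Finset.mem_Ico.1 hk
  rw [Jp_coeff, if_pos hk', map_mul]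
  have h1 : z ^ n = z ^ k * z ^ (n - k) := by rw [← pow_add]; congr 1; omega
  have h2 : z ^ (n - k) * (starRingEnd ℂ) (z ^ (n - k)) = 1 :=
    mul_conj_one (by rw [norm_pow, hz, one_pow])
  rw [h1]
  linear_combination (-(starRingEnd ℂ) (U.coeff (n - k)) * z ^ k) * h2

/-- `z^n (|1 + V|² - 1 - c)` with `V = Jp n U` -/
noncomputable def Hpol (n : ℕ) (U : ℂ[X]) (c : ℝ) : ℂ[X] :=
  U + X ^ n * Jp n U + U * Jp n U - C (c : ℂ) * X ^ n

lemma Hpol_eval {n : ℕ} {U : ℂ[X]} (h : Fr n U) (c : ℝ) {z : ℂ} (hz : ‖z‖ = 1) :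
    (Hpol n U c).eval z
      = z ^ n * ((2 * ((Jp n U).eval z).re + ‖(Jp n U).eval z‖ ^ 2 - c : ℝ) : ℂ) := by
  unfold Hpol
  have h1 := Jp_eval h hz
  have h2 : U.eval z = z ^ n * (starRingEnd ℂ) ((Jp n U).eval z) := by
    have := Jp_eval (Jp_Fr n U) hz
    rwa [Jp_Jp h] at this
  simp only [eval_sub, eval_add, eval_mul, eval_pow, eval_X, eval_C]
  set w := (Jp n U).eval z with hw
  rw [h2]
  have h3 : ((‖w‖ ^ 2 : ℝ) : ℂ) = w * (starRingEnd ℂ) w := by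
    rw [Complex.mul_conj, Complex.normSq_eq_norm_sq]
  have h4 : ((2 * w.re : ℝ) : ℂ) = w + (starRingEnd ℂ) w := by
    rw [Complex.add_conj]
  have h5 : ((2 * w.re + ‖w‖ ^ 2 - c : ℝ) : ℂ)
      = ((2 * w.re : ℝ) : ℂ) + ((‖w‖ ^ 2 : ℝ) : ℂ) - (c : ℂ) := by push_cast; ring
  rw [h5, h3, h4]
  ring

lemma mul_high {n : ℕ} {U V : ℂ[X]} (hU : Fr n U) (hV : Fr n V) :
    ∀ k, 2 * n ≤ k → (U * V).coeff k = 0 := by
  intro k hk
  rw [Polynomial.coeff_mul]
  refine Finset.sum_eq_zero fun x hx => ?_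
  have := Finset.HasAntidiagonal.mem_antidiagonal.1 hx
  rcases le_or_gt n x.1 with h | h
  · rw [hU.high _ h, zero_mul]
  · rw [hV.high _ (by omega), mul_zero]

lemma mul_zero_coeff {n : ℕ} {U V : ℂ[X]} (hU : Fr n U) :
    (U * V).coeff 0 = 0 := by
  rw [Polynomial.mul_coeff_zero, hU.zero, zero_mul]

lemma Hpol_high {n : ℕ} {U : ℂ[X]} (h : Fr n U) (c : ℝ) (hn : 0 < n) :
    ∀ k, n + n ≤ k → (Hpol n U c).coeff k = 0 := by
  intro k hk
  unfold Hpol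
  simp only [coeff_sub, coeff_add, coeff_C_mul, coeff_X_pow]
  rw [h.high k (by omega), mul_high h (Jp_Fr n U) k (by omega), if_neg (by omega),
    Polynomial.coeff_X_pow_mul']
  rw [if_pos (by omega), (Jp_Fr n U).high _ (by omega)]
  simp

lemma Hpol_low {n : ℕ} {U : ℂ[X]} (c : ℝ) {k : ℕ} (hk : k < n) :
    (Hpol n U c).coeff k = (U + U * Jp n U).coeff k := by
  unfold Hpol
  simp only [coeff_sub, coeff_add, coeff_C_mul, coeff_X_pow]
  rw [if_neg (by omega), Polynomial.coeff_X_pow_mul', if_neg (by omega)]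
  ring

lemma mul_Jp_mid {n : ℕ} {U : ℂ[X]} (h : Fr n U) :
    (U * Jp n U).coeff n = ((∑ k ∈ range n, ‖U.coeff k‖ ^ 2 : ℝ) : ℂ) := by
  rw [Polynomial.coeff_mul, Finset.Nat.sum_antidiagonal_eq_sum_range_succ_mk,
    Finset.sum_range_succ, h.high n le_rfl, zero_mul, add_zero]
  push_cast
  refine Finset.sum_congr rfl fun k hk => ?_
  have hk' := Finset.mem_range.1 hk
  rcases Nat.eq_zero_or_pos k with h0 | h0
  · subst h0; rw [h.zero]; simp
  · rw [Jp_coeff, if_pos (by omega), show n - (n - k) = k by omega, Complex.mul_conj,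
      Complex.normSq_eq_norm_sq]
    push_cast; rfl

lemma Hpol_mid {n : ℕ} {U : ℂ[X]} (h : Fr n U) (c : ℝ) (hn : 0 < n) :
    (Hpol n U c).coeff n = ((∑ k ∈ range n, ‖U.coeff k‖ ^ 2 - c : ℝ) : ℂ) := by
  unfold Hpol
  simp only [coeff_sub, coeff_add, coeff_C_mul, coeff_X_pow]
  rw [h.high n le_rfl, mul_Jp_mid h, Polynomial.coeff_X_pow_mul', if_pos le_rfl,
    Nat.sub_self, (Jp_Fr n U).zero]
  simp

/-- mirror symmetry of the coefficients -/
lemma mirror (n : ℕ) (hn : 0 < n) (f : ℕ → ℂ) (h : ℕ → ℝ)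
    (hf : ∀ j, ev (n + n) f (pt (n + n) 1 j) = pt (n + n) 1 j ^ n * (h j : ℂ)) (m : ℕ) (hm0 : 0 < m)
    (hm : m < n) : f (n + (n - m)) = (starRingEnd ℂ) (f m) := by
  have hM : n + n ≠ 0 := by omega
  have h1 := coef_of_values (n + n) hM (ρ := 1) (by simp) f (n + (n - m)) (by omega)
  have h2 := coef_of_values (n + n) hM (ρ := 1) (by simp) f m (by omega)
  have h2' := congrArg (starRingEnd ℂ) h2
  rw [map_sum, map_mul, Complex.conj_natCast] at h2'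
  have h3 : ∑ j ∈ range (n + n), ev (n + n) f (pt (n + n) 1 j)
        * (starRingEnd ℂ) (pt (n + n) 1 j ^ (n + (n - m)))
      = ∑ j ∈ range (n + n), (starRingEnd ℂ) (ev (n + n) f (pt (n + n) 1 j)
        * (starRingEnd ℂ) (pt (n + n) 1 j ^ m)) := by
    refine Finset.sum_congr rfl fun j _ => ?_
    set z := pt (n + n) 1 j with hz
    have hz1 : ‖z‖ = 1 := norm_pt _ (by simp) j
    rw [hf j, ← hz]
    simp only [map_mul, Complex.conj_conj, Complex.conj_ofReal]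
    have e1 : z ^ n * (starRingEnd ℂ) (z ^ n) = 1 := mul_conj_one (by rw [norm_pow, hz1, one_pow])
    have e2 : z ^ m * (starRingEnd ℂ) (z ^ m) = 1 := mul_conj_one (by rw [norm_pow, hz1, one_pow])
    have e3 : z ^ n = z ^ m * z ^ (n - m) := by rw [← pow_add]; congr 1; omega
    have e4 : (starRingEnd ℂ) (z ^ (n + (n - m)))
        = (starRingEnd ℂ) (z ^ n) * (starRingEnd ℂ) (z ^ (n - m)) := by rw [pow_add, map_mul]
    have e5 : (starRingEnd ℂ) (z ^ n) = (starRingEnd ℂ) (z ^ m) * (starRingEnd ℂ) (z ^ (n - m)) := by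
      rw [← map_mul, ← e3]
    rw [e4]
    have e6 : z ^ n * ↑(h j) * ((starRingEnd ℂ) (z ^ n) * (starRingEnd ℂ) (z ^ (n - m)))
        = ↑(h j) * (starRingEnd ℂ) (z ^ (n - m)) := by
      linear_combination (↑(h j) * (starRingEnd ℂ) (z ^ (n - m))) * e1
    rw [e6, e5]
    linear_combination (-(↑(h j) * (starRingEnd ℂ) (z ^ (n - m)))) * e2
  rw [h3, h2'] at h1
  have hM' : ((n + n : ℕ) : ℂ) ≠ 0 := by exact_mod_cast hM
  exact (mul_left_cancel₀ hM' h1).symm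

/-- the energy of `Hpol` on every grid of `2n` points -/
lemma Hpol_energy {n : ℕ} {U : ℂ[X]} (h : Fr n U) (c : ℝ) (hn : 0 < n) :
    ∑ k ∈ range (n + n), ‖(Hpol n U c).coeff k‖ ^ 2
      = 2 * ∑ k ∈ range n, ‖(U + U * Jp n U).coeff k‖ ^ 2
        + (∑ k ∈ range n, ‖U.coeff k‖ ^ 2 - c) ^ 2 := by
  set f := (Hpol n U c).coeff with hf
  have hmir : ∀ m, 0 < m → m < n → f (n + (n - m)) = (starRingEnd ℂ) (f m) := by
    intro m hm0 hm
    refine mirror n hn f (fun j => 2 * ((Jp n U).eval (pt (n + n) 1 j)).re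
      + ‖(Jp n U).eval (pt (n + n) 1 j)‖ ^ 2 - c) ?_ m hm0 hm
    intro j
    rw [hf, ← eval_ev (Hpol_high h c hn), Hpol_eval h c (norm_pt _ (by simp) j)]
  rw [Finset.sum_range_add]
  have h0 : f 0 = 0 := by
    rw [hf, Hpol_low c hn, coeff_add, h.zero, mul_zero_coeff h, add_zero]
  have h1 : ∑ k ∈ range n, ‖f (n + k)‖ ^ 2
      = (∑ k ∈ range n, ‖U.coeff k‖ ^ 2 - c) ^ 2 + ∑ k ∈ range n, ‖f k‖ ^ 2 := by
    rw [Finset.range_eq_Ico, Finset.sum_eq_sum_Ico_succ_bot hn,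
      Finset.sum_eq_sum_Ico_succ_bot (f := fun k => ‖f k‖ ^ 2) hn, h0]
    have h2 : ‖f (n + 0)‖ ^ 2 = (∑ k ∈ Ico 0 n, ‖U.coeff k‖ ^ 2 - c) ^ 2 := by
      rw [add_zero, hf, Hpol_mid h c hn, Complex.norm_real, Real.norm_eq_abs, sq_abs,
        Finset.range_eq_Ico]
    rw [h2]
    have h3 : ∑ k ∈ Ico (0 + 1) n, ‖f (n + k)‖ ^ 2 = ∑ k ∈ Ico (0 + 1) n, ‖f k‖ ^ 2 := by
      simp only [zero_add]
      have h4 : ∀ k ∈ Ico 1 n, ‖f (n + k)‖ ^ 2 = ‖f (n - k)‖ ^ 2 := by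
        intro k hk
        have hk' := Finset.mem_Ico.1 hk
        have h5 := hmir (n - k) (by omega) (by omega)
        rw [show n + (n - (n - k)) = n + k by omega] at h5
        rw [h5, Complex.norm_conj]
      rw [Finset.sum_congr rfl h4]
      refine Finset.sum_nbij' (fun k => n - k) (fun k => n - k) ?_ ?_ ?_ ?_ ?_
      · intro k hk; simp only [Finset.mem_Ico] at hk ⊢; omega
      · intro k hk; simp only [Finset.mem_Ico] at hk ⊢; omega
      · intro k hk; simp only [Finset.mem_Ico] at hk; omega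
      · intro k hk; simp only [Finset.mem_Ico] at hk; omega
      · intro k hk; rfl
    rw [h3]
    simp
  rw [h1]
  have h6 : ∑ k ∈ range n, ‖f k‖ ^ 2 = ∑ k ∈ range n, ‖(U + U * Jp n U).coeff k‖ ^ 2 :=
    Finset.sum_congr rfl fun k hk => by rw [hf, Hpol_low c (Finset.mem_range.1 hk)]
  rw [h6]
  ring

lemma Hpol_grid {n : ℕ} {U : ℂ[X]} (h : Fr n U) (c : ℝ) (hn : 0 < n) {ρ : ℂ} (hρ : ‖ρ‖ = 1) :
    ∑ j ∈ range (n + n), (2 * ((Jp n U).eval (pt (n + n) ρ j)).re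
        + ‖(Jp n U).eval (pt (n + n) ρ j)‖ ^ 2 - c) ^ 2
      = 2 * n * (2 * ∑ k ∈ range n, ‖(U + U * Jp n U).coeff k‖ ^ 2
        + (∑ k ∈ range n, ‖U.coeff k‖ ^ 2 - c) ^ 2) := by
  rw [← Hpol_energy h c hn]
  have h1 := parseval (n + n) (by omega) hρ (Hpol n U c).coeff
  push_cast at h1
  rw [show (2 * n : ℝ) = n + n by ring, ← h1]
  refine Finset.sum_congr rfl fun j _ => ?_
  rw [← eval_ev (Hpol_high h c hn), Hpol_eval h c (norm_pt _ hρ j), norm_mul, norm_pow,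
    norm_pt _ hρ j, one_pow, one_mul, Complex.norm_real, Real.norm_eq_abs, sq_abs]

end Q94.LC
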