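import Pool.Agent.Q94.LC.Frq
import Pool.Agent.Q94.LC.Coef

/-! The coefficient bound `|[z^n] F(ω)| ≤ 1` for `F(w) = w + cosh w - 1`. -/

set_option autoImplicit false

namespace Q94.LC

open Metric Set Filter Topology Polynomial Pool.Agent.W769.SR Pool.Agent.W366.SR.Rog

/-- `F(w) = w + cosh w - 1` -/
noncomputable def Fch (w : ℂ) : ℂ := w + Complex.cosh w - 1

lemma Fch_analytic (z : ℂ) : AnalyticAt ℂ Fch z := by
  unfold Fch
  have : Differentiable ℂ fun w : ℂ => w + Complex.cosh w - 1 := by fun_prop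
  exact this.analyticAt z

/-- the coefficients `1/l!` for even `l`, `0` for odd `l` -/
noncomputable def ec (l : ℕ) : ℝ := if Even l then 1 / (l.factorial : ℝ) else 0

lemma ec_nonneg (l : ℕ) : 0 ≤ ec l := by unfold ec; split_ifs <;> positivity

lemma ec_le (l : ℕ) : ec l ≤ 1 / (l.factorial : ℝ) := by
  unfold ec; split_ifs
  · exact le_rfl
  · positivity

lemma co_cosh (l : ℕ) : co Complex.cosh l = (ec l : ℂ) := by
  unfold co ec
  rcases Nat.even_or_odd' l with ⟨k, hk | hk⟩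
  · subst hk
    rw [Complex.iteratedDeriv_even_cosh, if_pos (even_two_mul k), Complex.cosh_zero]
    push_cast; rfl
  · subst hk
    rw [Complex.iteratedDeriv_odd_cosh, if_neg (by simp [Nat.even_add_one]), Complex.sinh_zero]
    simp

lemma co_Fch (l : ℕ) : co Fch l = (if l = 1 then 1 else 0) + (ec l : ℂ)
    - (if l = 0 then 1 else 0) := by
  have hc : AnalyticAt ℂ Complex.cosh 0 := Complex.differentiable_cosh.analyticAt 0
  have h1 := (agree_poly (l + 1) (X : ℂ[X])).add (agree_of_analytic hc (l + 1))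
  have h2 := h1.add (agree_poly (l + 1) (C (-1) : ℂ[X]))
  have h3 : co Fch l = (X + tp Complex.cosh (l + 1) + C (-1)).coeff l := by
    rw [← h2.co_eq (Nat.lt_succ_self l)]
    congr 1
    funext z
    unfold Fch
    simp [sub_eq_add_neg]
  rw [h3, coeff_add, coeff_add, tp_coeff, if_pos (Nat.lt_succ_self l), co_cosh, coeff_X, coeff_C]
  by_cases h0 : l = 0
  · subst h0; simp [sub_eq_add_neg]
  · rw [if_neg h0, if_neg h0]
    by_cases h1 : l = 1
    · subst h1; simp
    · rw [if_neg h1, if_neg (fun h => h1 h.symm)]; ring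

lemma ec_sum_aux (m : ℕ) (hm : 8 ≤ m) :
    ∑ l ∈ Finset.Ico 3 m, ec l + 9 / 8 * (1 / (m.factorial : ℝ)) ≤ 5 / 116 := by
  induction m, hm using Nat.le_induction with
  | base =>
    have e3 : ec 3 = 0 := by unfold ec; rw [if_neg (by decide)]
    have e5 : ec 5 = 0 := by unfold ec; rw [if_neg (by decide)]
    have e7 : ec 7 = 0 := by unfold ec; rw [if_neg (by decide)]
    have e4 : ec 4 = 1 / 24 := by unfold ec; rw [if_pos (by decide)]; norm_num [Nat.factorial]
    have e6 : ec 6 = 1 / 720 := by unfold ec; rw [if_pos (by decide)]; norm_num [Nat.factorial]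
    have hI : Finset.Ico 3 8 = {3, 4, 5, 6, 7} := by decide
    rw [hI]
    simp only [Finset.mem_insert, Finset.mem_singleton, Finset.sum_insert, Finset.sum_singleton,
      e3, e4, e5, e6, e7, Nat.reduceEqDiff, or_self, not_false_eq_true, or_false, false_or]
    norm_num [Nat.factorial]
  | succ m hm ih =>
    rw [Finset.sum_Ico_succ_top (by omega)]
    have h1 := ec_le m
    have hf : (0 : ℝ) < m.factorial := by exact_mod_cast m.factorial_pos
    have h2 : 1 / (m.factorial : ℝ) + 9 / 8 * (1 / ((m + 1).factorial : ℝ))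
        ≤ 9 / 8 * (1 / (m.factorial : ℝ)) := by
      rw [Nat.factorial_succ]
      push_cast
      have hm' : (8 : ℝ) ≤ m := by exact_mod_cast hm
      have h3 : 1 / (((m : ℝ) + 1) * m.factorial) = 1 / ((m : ℝ) + 1) * (1 / m.factorial) := by
        field_simp
      rw [h3]
      have h4 : 1 / ((m : ℝ) + 1) ≤ 1 / 9 := by
        apply one_div_le_one_div_of_le (by norm_num); linarith
      have h5 : (0 : ℝ) < 1 / m.factorial := by positivity
      nlinarith
    linarith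

lemma ec_sum (m : ℕ) : ∑ l ∈ Finset.Ico 3 m, ec l ≤ 5 / 116 := by
  rcases le_or_gt 8 m with hm | hm
  · have := ec_sum_aux m hm
    have h : 0 ≤ 9 / 8 * (1 / (m.factorial : ℝ)) := by positivity
    linarith
  · have h8 := ec_sum_aux 8 le_rfl
    have h : 0 ≤ 9 / 8 * (1 / ((8 : ℕ).factorial : ℝ)) := by positivity
    have h2 : ∑ l ∈ Finset.Ico 3 m, ec l ≤ ∑ l ∈ Finset.Ico 3 8, ec l :=
      Finset.sum_le_sum_of_subset_of_nonneg (Finset.Ico_subset_Ico le_rfl hm.le)
        fun l _ _ => ec_nonneg l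
    linarith

/-! ### low coefficients of products -/

/-- two polynomials without constant term which agree below `n` -/
structure Lo (n : ℕ) (P Q : ℂ[X]) : Prop where
  left : P.coeff 0 = 0
  right : Q.coeff 0 = 0
  eq : ∀ k < n, P.coeff k = Q.coeff k

lemma Lo.mul_coeff {n : ℕ} {P Q P' Q' : ℂ[X]} (h : Lo n P Q) (h' : Lo n P' Q') {m : ℕ}
    (hm : m ≤ n) : (P * P').coeff m = (Q * Q').coeff m := by
  rw [Polynomial.coeff_mul, Polynomial.coeff_mul]
  refine Finset.sum_congr rfl fun x hx => ?_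
  have hx' := Finset.HasAntidiagonal.mem_antidiagonal.1 hx
  rcases Nat.eq_zero_or_pos x.1 with h1 | h1
  · rw [h1, h.left, h.right, zero_mul, zero_mul]
  · rcases Nat.eq_zero_or_pos x.2 with h2 | h2
    · rw [h2, h'.left, h'.right, mul_zero, mul_zero]
    · rw [h.eq _ (by omega), h'.eq _ (by omega)]

lemma Lo.mul {n : ℕ} {P Q P' Q' : ℂ[X]} (h : Lo n P Q) (h' : Lo n P' Q') :
    Lo n (P * P') (Q * Q') :=
  ⟨by rw [Polynomial.mul_coeff_zero, h.left, zero_mul],
   by rw [Polynomial.mul_coeff_zero, h.right, zero_mul],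
   fun _ hk => h.mul_coeff h' hk.le⟩

lemma Lo.pow {n : ℕ} {P Q : ℂ[X]} (h : Lo n P Q) (l : ℕ) (hl : 1 ≤ l) : Lo n (P ^ l) (Q ^ l) := by
  induction l, hl using Nat.le_induction with
  | base => simpa using h
  | succ l hl ih =>
    rw [pow_succ, pow_succ]
    exact ih.mul h

/-- truncation -/
noncomputable def trunc (n : ℕ) (P : ℂ[X]) : ℂ[X] := ∑ k ∈ Finset.range n, C (P.coeff k) * X ^ k

lemma trunc_coeff (n : ℕ) (P : ℂ[X]) (k : ℕ) :
    (trunc n P).coeff k = if k < n then P.coeff k else 0 := by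
  unfold trunc
  rw [Polynomial.finsetSum_coeff]
  simp only [Polynomial.coeff_C_mul_X_pow]
  rw [Finset.sum_ite_eq (Finset.range n) k]
  simp only [Finset.mem_range]

/-- the energy of a power -/
noncomputable def TT (n : ℕ) (U : ℂ[X]) (j : ℕ) : ℝ := ∑ k ∈ Finset.range n, ‖(U ^ j).coeff k‖ ^ 2

lemma TT_nonneg (n : ℕ) (U : ℂ[X]) (j : ℕ) : 0 ≤ TT n U j :=
  Finset.sum_nonneg fun _ _ => sq_nonneg _

lemma pow_coeff_zero {n : ℕ} {U : ℂ[X]} (h : Fr n U) {j : ℕ} (hj : 1 ≤ j) :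
    (U ^ j).coeff 0 = 0 := by
  obtain ⟨i, rfl⟩ : ∃ i, j = i + 1 := ⟨j - 1, by omega⟩
  rw [pow_succ, Polynomial.mul_coeff_zero, h.zero, mul_zero]

/-- Cauchy-Schwarz for the coefficient `n` of an even power -/
lemma even_coeff {n : ℕ} {U : ℂ[X]} (h : Fr n U) {j : ℕ} (hj : 1 ≤ j) :
    ‖(U ^ (j + j)).coeff n‖ ≤ TT n U j := by
  set V := U ^ j with hV
  have hV0 : V.coeff 0 = 0 := pow_coeff_zero h hj
  rcases Nat.eq_zero_or_pos n with hn | hn
  · subst hn
    rw [pow_add, ← hV, Polynomial.mul_coeff_zero, hV0]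
    simp [TT]
  have h1 : (U ^ (j + j)).coeff n = ∑ k ∈ Finset.Ico 1 n, V.coeff k * V.coeff (n - k) := by
    rw [pow_add, ← hV, Polynomial.coeff_mul, Finset.Nat.sum_antidiagonal_eq_sum_range_succ_mk,
      Finset.sum_range_succ, Nat.sub_self, hV0, mul_zero, add_zero, Finset.range_eq_Ico,
      Finset.sum_eq_sum_Ico_succ_bot hn]
    simp [hV0]
  have h2 : TT n U j = ∑ k ∈ Finset.Ico 1 n, ‖V.coeff k‖ ^ 2 := by
    unfold TT
    rw [← hV, Finset.range_eq_Ico, Finset.sum_eq_sum_Ico_succ_bot hn, hV0]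
    simp
  have h3 : ∑ k ∈ Finset.Ico 1 n, ‖V.coeff (n - k)‖ ^ 2 = ∑ k ∈ Finset.Ico 1 n, ‖V.coeff k‖ ^ 2 := by
    refine Finset.sum_nbij' (fun k => n - k) (fun k => n - k) ?_ ?_ ?_ ?_ ?_
    · intro k hk; simp only [Finset.mem_Ico] at hk ⊢; omega
    · intro k hk; simp only [Finset.mem_Ico] at hk ⊢; omega
    · intro k hk; simp only [Finset.mem_Ico] at hk; omega
    · intro k hk; simp only [Finset.mem_Ico] at hk; omega
    · intro k hk; rfl
  rw [h1, h2]
  calc ‖∑ k ∈ Finset.Ico 1 n, V.coeff k * V.coeff (n - k)‖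
      ≤ ∑ k ∈ Finset.Ico 1 n, ‖V.coeff k * V.coeff (n - k)‖ := norm_sum_le _ _
    _ ≤ ∑ k ∈ Finset.Ico 1 n, (1 / 2 * ‖V.coeff k‖ ^ 2 + 1 / 2 * ‖V.coeff (n - k)‖ ^ 2) :=
        Finset.sum_le_sum fun k _ => by
          rw [norm_mul]; nlinarith [sq_nonneg (‖V.coeff k‖ - ‖V.coeff (n - k)‖)]
    _ = _ := by
        rw [Finset.sum_add_distrib, ← Finset.mul_sum, ← Finset.mul_sum, h3]; ring

/-- the bound for the real part -/
theorem re_bound {ω : ℂ → ℂ} (hω : SelfMap ω) {n : ℕ} (hn : 0 < n) :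
    (co (fun z => Fch (ω z)) n).re ≤ 1 := by
  have hωa : AnalyticAt ℂ ω 0 := hω.diff.analyticAt (ball_mem_nhds _ one_pos)
  set Ω := tp ω (n + 1) with hΩ
  set U := tp ω n with hU
  set cn := co ω n with hcn
  have hc0 : co ω 0 = 0 := by unfold co; simp [hω.zero]
  have hUF : Fr n U := ⟨by rw [hU, tp_coeff]; split_ifs <;> simp [hc0],
    fun k hk => by rw [hU, tp_coeff, if_neg (by omega)]⟩
  have hΩc : ∀ k, Ω.coeff k = if k < n + 1 then co ω k else 0 := fun k => tp_coeff ω (n + 1) k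
  have hΩn : Ω.coeff n = cn := by rw [hΩc, if_pos (by omega)]
  have hLo : Lo n Ω U := ⟨by rw [hΩc, if_pos (by omega), hc0], hUF.zero,
    fun k hk => by rw [hΩc, if_pos (by omega), hU, tp_coeff, if_pos hk]⟩
  -- (A)
  set a := ∑ k ∈ Finset.range n, ‖U.coeff k‖ ^ 2 with ha
  have hTa : TT n U 1 = a := by unfold TT; rw [pow_one]
  have ha0 : 0 ≤ a := Finset.sum_nonneg fun _ _ => sq_nonneg _
  have hA : a + ‖cn‖ ^ 2 ≤ 1 := by
    have h1 := contr hω (n + 1) 1 1 (fun k hk => by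
      rw [Polynomial.coeff_one, if_neg (by omega)])
    rw [← hΩ, mul_one, Finset.sum_range_succ, hΩn] at h1
    have h2 : ∑ m ∈ Finset.range n, ‖Ω.coeff m‖ ^ 2 = a :=
      Finset.sum_congr rfl fun m hm => by rw [hLo.eq m (Finset.mem_range.1 hm)]
    rw [h2] at h1
    simpa using h1
  -- (B)
  set W := ∑ k ∈ Finset.range n, ‖(U + U * Jp n U).coeff k‖ ^ 2 with hW
  have hJF := Jp_Fr n U
  have hLoJ : Lo n (Jp n U) (Jp n U) := ⟨hJF.zero, hJF.zero, fun _ _ => rfl⟩
  have hB : W + ‖cn + a‖ ^ 2 ≤ 1 + a := by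
    have h1 := contr hω (n + 1) n (1 + Jp n U) (fun k hk => by
      rw [coeff_add, Polynomial.coeff_one, if_neg (by omega), hJF.high k hk, add_zero])
    rw [← hΩ, Finset.sum_range_succ] at h1
    have h2 : ∑ m ∈ Finset.range n, ‖(Ω * (1 + Jp n U)).coeff m‖ ^ 2 = W :=
      Finset.sum_congr rfl fun m hm => by
        have hm' := Finset.mem_range.1 hm
        rw [mul_add, mul_one, coeff_add, coeff_add, hLo.eq m hm', hLo.mul_coeff hLoJ hm'.le]
    have h3 : (Ω * (1 + Jp n U)).coeff n = cn + a := by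
      rw [mul_add, mul_one, coeff_add, hΩn, hLo.mul_coeff hLoJ le_rfl, mul_Jp_mid hUF]
    have h4 : ∑ k ∈ Finset.range n, ‖(1 + Jp n U).coeff k‖ ^ 2 = 1 + a := by
      rw [ha, ← Jp_energy hUF, Finset.range_eq_Ico, Finset.sum_eq_sum_Ico_succ_bot hn,
        Finset.sum_eq_sum_Ico_succ_bot (f := fun k => ‖(Jp n U).coeff k‖ ^ 2) hn, coeff_add,
        hJF.zero]
      have h5 : ∑ k ∈ Finset.Ico (0 + 1) n, ‖(1 + Jp n U).coeff k‖ ^ 2
          = ∑ k ∈ Finset.Ico (0 + 1) n, ‖(Jp n U).coeff k‖ ^ 2 :=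
        Finset.sum_congr rfl fun k hk => by
          have hk' := Finset.mem_Ico.1 hk
          rw [coeff_add, Polynomial.coeff_one, if_neg (by omega), zero_add]
      rw [h5]
      simp
    rw [h2, h3, h4] at h1
    exact h1
  -- (C)
  have hC : ∀ j, 1 ≤ j → TT n U (j + 1) + ‖(U ^ (j + 1)).coeff n‖ ^ 2 ≤ TT n U j := by
    intro j hj
    set V := trunc n (U ^ j) with hV
    have hVlo : Lo n V (U ^ j) := by
      refine ⟨?_, pow_coeff_zero hUF hj, fun k hk => by rw [hV, trunc_coeff, if_pos hk]⟩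
      rw [hV, trunc_coeff, if_pos hn, pow_coeff_zero hUF hj]
    have h1 := contr hω (n + 1) n V (fun k hk => by rw [hV, trunc_coeff, if_neg (by omega)])
    rw [← hΩ, Finset.sum_range_succ] at h1
    have h2 : ∀ m ≤ n, (Ω * V).coeff m = (U ^ (j + 1)).coeff m := fun m hm => by
      rw [hLo.mul_coeff hVlo hm, pow_succ, mul_comm]
    rw [h2 n le_rfl] at h1
    have h3 : ∑ m ∈ Finset.range n, ‖(Ω * V).coeff m‖ ^ 2 = TT n U (j + 1) :=
      Finset.sum_congr rfl fun m hm => by rw [h2 m (Finset.mem_range.1 hm).le]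
    have h4 : ∑ k ∈ Finset.range n, ‖V.coeff k‖ ^ 2 = TT n U j :=
      Finset.sum_congr rfl fun m hm => by rw [hV, trunc_coeff, if_pos (Finset.mem_range.1 hm)]
    rw [h3, h4] at h1
    exact h1
  have hT2 : ∀ j, 2 ≤ j → TT n U j ≤ TT n U 2 := by
    intro j hj
    induction j, hj using Nat.le_induction with
    | base => exact le_rfl
    | succ j hj ih =>
      have := hC j (by omega)
      have h0 := sq_nonneg ‖(U ^ (j + 1)).coeff n‖
      linarith
  -- the expansion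
  have hexp : co (fun z => Fch (ω z)) n
      = ∑ l ∈ Finset.range (n + 3), co Fch l * (Ω ^ l).coeff n := by
    rw [co_comp hωa hω.zero (Fch_analytic 0) (n := n + 3) (by omega)]
    have h1 := (agree_of_analytic hωa (n + 1)).comp_poly (tp Fch (n + 3))
    rw [h1.co_eq (Nat.lt_succ_self n), ← hΩ]
    have h2 : (tp Fch (n + 3)).comp Ω = ∑ l ∈ Finset.range (n + 3), C (co Fch l) * Ω ^ l := by
      unfold tp
      rw [Polynomial.sum_comp]
      simp
    rw [h2, Polynomial.finsetSum_coeff]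
    exact Finset.sum_congr rfl fun l _ => by rw [coeff_C_mul]
  have hsplit : ∑ l ∈ Finset.range (n + 3), co Fch l * (Ω ^ l).coeff n
      = cn + 1 / 2 * (U * U).coeff n + ∑ l ∈ Finset.Ico 3 (n + 3), (ec l : ℂ) * (U ^ l).coeff n := by
    rw [Finset.range_eq_Ico, Finset.sum_eq_sum_Ico_succ_bot (by omega),
      Finset.sum_eq_sum_Ico_succ_bot (by omega), Finset.sum_eq_sum_Ico_succ_bot (by omega)]
    have h0 : co Fch 0 * (Ω ^ 0).coeff n = 0 := by
      rw [pow_zero, Polynomial.coeff_one, if_neg (by omega), mul_zero]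
    have e1 : co Fch (0 + 1) = 1 := by
      rw [co_Fch]; unfold ec; simp
    have e2 : co Fch (0 + 1 + 1) = 1 / 2 := by
      rw [co_Fch]; unfold ec; norm_num [Nat.factorial]
    have hl2 : (Ω ^ (0 + 1 + 1)).coeff n = (U * U).coeff n := by
      rw [show (0 + 1 + 1) = 2 by norm_num, sq]
      exact hLo.mul_coeff hLo le_rfl
    have h3 : ∑ l ∈ Finset.Ico (0 + 1 + 1 + 1) (n + 3), co Fch l * (Ω ^ l).coeff n
        = ∑ l ∈ Finset.Ico 3 (n + 3), (ec l : ℂ) * (U ^ l).coeff n := by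
      refine Finset.sum_congr rfl fun l hl => ?_
      have hl' := Finset.mem_Ico.1 hl
      have e3 : co Fch l = (ec l : ℂ) := by
        rw [co_Fch, if_neg (by omega), if_neg (by omega)]; ring
      rw [e3]
      congr 1
      obtain ⟨i, rfl⟩ : ∃ i, l = i + 1 := ⟨l - 1, by omega⟩
      rw [pow_succ, pow_succ]
      exact (hLo.pow i (by omega)).mul_coeff hLo le_rfl
    rw [h0, e1, e2, hl2, h3, zero_add, pow_one, one_mul, hΩn]
    ring
  set R := ∑ l ∈ Finset.Ico 3 (n + 3), (ec l : ℂ) * (U ^ l).coeff n with hR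
  have hRb : ‖R‖ ≤ 5 / 116 * TT n U 2 := by
    have h1 : ∀ l ∈ Finset.Ico 3 (n + 3), ‖(ec l : ℂ) * (U ^ l).coeff n‖ ≤ ec l * TT n U 2 := by
      intro l hl
      have hl' := Finset.mem_Ico.1 hl
      rw [norm_mul, Complex.norm_real, Real.norm_of_nonneg (ec_nonneg l)]
      rcases Nat.even_or_odd l with he | ho
      · obtain ⟨j, rfl⟩ := he
        refine mul_le_mul_of_nonneg_left ?_ (ec_nonneg _)
        exact (even_coeff hUF (by omega)).trans (hT2 j (by omega))
      · have : ec l = 0 := by unfold ec; rw [if_neg (Nat.not_even_iff_odd.2 ho)]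
        rw [this, zero_mul, zero_mul]
    calc ‖R‖ ≤ ∑ l ∈ Finset.Ico 3 (n + 3), ‖(ec l : ℂ) * (U ^ l).coeff n‖ := norm_sum_le _ _
      _ ≤ ∑ l ∈ Finset.Ico 3 (n + 3), ec l * TT n U 2 := Finset.sum_le_sum h1
      _ = (∑ l ∈ Finset.Ico 3 (n + 3), ec l) * TT n U 2 := by rw [Finset.sum_mul]
      _ ≤ 5 / 116 * TT n U 2 := mul_le_mul_of_nonneg_right (ec_sum _) (TT_nonneg _ _ _)
  -- numbers
  set x := cn.re with hx
  set q := ((U * U).coeff n).re with hq
  have hre : (co (fun z => Fch (ω z)) n).re = x + 1 / 2 * q + R.re := by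
    rw [hexp, hsplit]
    simp only [Complex.add_re, Complex.mul_re]
    have e1 : (1 / 2 : ℂ).re = 1 / 2 := by norm_num
    have e2 : (1 / 2 : ℂ).im = 0 := by norm_num
    rw [e1, e2]; ring
  have hRre : R.re ≤ 5 / 116 * TT n U 2 := (Complex.re_le_norm R).trans hRb
  have hq2 : q ^ 2 ≤ ‖(U ^ (1 + 1)).coeff n‖ ^ 2 := by
    rw [show U ^ (1 + 1) = U * U by ring, hq]
    have := Complex.abs_re_le_norm ((U * U).coeff n)
    calc ((U * U).coeff n).re ^ 2 = |((U * U).coeff n).re| ^ 2 := (sq_abs _).symm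
      _ ≤ _ := pow_le_pow_left₀ (abs_nonneg _) this 2
  have hT : TT n U 2 ≤ a - q ^ 2 := by
    have := hC 1 le_rfl
    rw [hTa] at this
    linarith
  have hup : (co (fun z => Fch (ω z)) n).re ≤ x + 1 / 2 * q + 5 / 116 * (a - q ^ 2) := by
    rw [hre]; linarith
  have hqa : q ≤ a := by
    have h1 := even_coeff hUF (j := 1) le_rfl
    rw [hTa, show U ^ (1 + 1) = U * U by ring] at h1
    exact (Complex.re_le_norm _).trans h1
  have hx2 : x ^ 2 ≤ ‖cn‖ ^ 2 := by
    have := Complex.abs_re_le_norm cn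
    calc x ^ 2 = |cn.re| ^ 2 := (sq_abs _).symm
      _ ≤ _ := pow_le_pow_left₀ (abs_nonneg _) this 2
  have hxa2 : (x + a) ^ 2 ≤ ‖cn + a‖ ^ 2 := by
    have := Complex.abs_re_le_norm (cn + a)
    have h1 : (cn + a).re = x + a := by simp [hx]
    rw [h1] at this
    calc (x + a) ^ 2 = |x + a| ^ 2 := (sq_abs _).symm
      _ ≤ _ := pow_le_pow_left₀ (abs_nonneg _) this 2
  rcases le_or_gt a (3 / 10) with hcase | hcase
  · have hmain := mainIneq hn hUF hcase
    rw [← ha, ← hq, ← hW] at hmain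
    nlinarith [sq_nonneg (1 - x - a)]
  · have hq0 : 0 ≤ q ^ 2 := sq_nonneg q
    have h1 : (co (fun z => Fch (ω z)) n).re ≤ x + 63 / 116 * a := by linarith
    have h2 : a ≤ 1 - x ^ 2 := by linarith
    have h3 : x ^ 2 < 7 / 10 := by linarith
    have h4 : x ≤ 53 / 63 := by nlinarith
    have h5 : (1 - x) * (63 / 116 * (1 + x)) ≤ (1 - x) * 1 :=
      mul_le_mul_of_nonneg_left (by linarith) (by linarith)
    nlinarith

/-- the coefficient bound -/
theorem coeff_bound {ω : ℂ → ℂ} (hω : SelfMap ω) {n : ℕ} (hn : 0 < n) :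
    ‖co (fun z => Fch (ω z)) n‖ ≤ 1 := by
  set c := co (fun z => Fch (ω z)) n with hc
  have hωa : AnalyticAt ℂ ω 0 := hω.diff.analyticAt (ball_mem_nhds _ one_pos)
  have hFa : AnalyticAt ℂ (fun z => Fch (ω z)) 0 := (Fch_analytic (ω 0)).comp hωa
  set κ : ℂ := Complex.exp (((-(c.arg) / n : ℝ) : ℂ) * Complex.I) with hκ
  have hκ1 : ‖κ‖ = 1 := by rw [hκ, Complex.norm_exp_ofReal_mul_I]
  have hn' : (n : ℂ) ≠ 0 := by exact_mod_cast hn.ne'
  have hκn : κ ^ n * c = (‖c‖ : ℂ) := by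
    have h1 : κ ^ n = Complex.exp (-(c.arg * Complex.I)) := by
      rw [hκ, ← Complex.exp_nat_mul]
      congr 1
      push_cast
      field_simp
    have h2 := Complex.norm_mul_exp_arg_mul_I c
    calc κ ^ n * c = Complex.exp (-(c.arg * Complex.I)) * (‖c‖ * Complex.exp (c.arg * Complex.I)) := by
          rw [h1, h2]
      _ = ‖c‖ * (Complex.exp (-(c.arg * Complex.I)) * Complex.exp (c.arg * Complex.I)) := by ring
      _ = ‖c‖ := by rw [← Complex.exp_add]; simp
  have hrot : SelfMap (fun z => ω (κ * z)) := by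
    have hmap : MapsTo (fun z : ℂ => κ * z) (ball 0 1) (ball 0 1) := by
      intro z hz
      rw [mem_ball_zero_iff] at hz ⊢
      rw [norm_mul, hκ1, one_mul]; exact hz
    refine ⟨?_, fun z hz => hω.maps (hmap hz), by simp [hω.zero]⟩
    exact hω.diff.comp (by fun_prop) hmap
  have h3 := re_bound hrot hn
  have h4 := co_rot hFa κ n
  rw [h4, ← hc, hκn, Complex.ofReal_re] at h3
  exact h3

end Q94.LC
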