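import Pool.Agent.Q94.LC.Abs
import Pool.Agent.Q94.LC.Hp

/-! The symmetric inequality `W(S) ≥ (61/400) X`. -/

set_option autoImplicit false

namespace Q94.LC

open Finset Complex Polynomial

/-- the positive kernel -/
noncomputable def ker (n : ℕ) (w : ℂ) : ℝ := 4 / ((n : ℝ) ^ 2 * Complex.normSq (1 - w))

lemma ker_nonneg (n : ℕ) (w : ℂ) : 0 ≤ ker n w := by
  unfold ker
  have := Complex.normSq_nonneg (1 - w)
  positivity

lemma sum_k_pow (w : ℂ) (n : ℕ) :
    (1 - w) ^ 2 * ∑ k ∈ range n, (k : ℂ) * w ^ k = w - n * w ^ n + (n - 1) * w ^ (n + 1) := by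
  induction n with
  | zero => simp
  | succ n ih =>
    rw [Finset.sum_range_succ, mul_add, ih]
    push_cast
    ring

lemma ker_eq {n : ℕ} (hn : 0 < n) {w : ℂ} (hw : w ^ n = -1) (hw1 : ‖w‖ = 1) :
    ((ker n w : ℝ) : ℂ) = 1 / n * ∑ k ∈ range n, (1 - 2 * k / n) * w ^ k := by
  have hn' : (n : ℂ) ≠ 0 := by exact_mod_cast hn.ne'
  have hne : w ≠ 1 := by
    rintro rfl
    rw [one_pow] at hw
    norm_num at hw
  have h1w : (1 - w) ≠ 0 := sub_ne_zero.2 hne.symm
  have hw0 : w ≠ 0 := by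
    rintro rfl
    simp at hw1
  have g0 : (1 - w) * ∑ k ∈ range n, w ^ k = 2 := by
    have := mul_neg_geom_sum w n
    rw [this, hw]; norm_num
  have g1 := sum_k_pow w n
  rw [pow_succ w n, hw] at g1
  have hsum : ∑ k ∈ range n, (1 - 2 * (k : ℂ) / n) * w ^ k
      = ∑ k ∈ range n, w ^ k - 2 / n * ∑ k ∈ range n, (k : ℂ) * w ^ k := by
    rw [Finset.mul_sum, ← Finset.sum_sub_distrib]
    exact Finset.sum_congr rfl fun k _ => by ring
  have hkey : (1 - w) ^ 2 * ∑ k ∈ range n, (1 - 2 * (k : ℂ) / n) * w ^ k = -4 * w / n := by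
    rw [hsum, mul_sub]
    have e1 : (1 - w) ^ 2 * ∑ k ∈ range n, w ^ k = (1 - w) * 2 := by rw [← g0]; ring
    have e2 : (1 - w) ^ 2 * (2 / n * ∑ k ∈ range n, (k : ℂ) * w ^ k)
        = 2 / n * (w - n * -1 + (n - 1) * (-1 * w)) := by rw [← g1]; ring
    rw [e1, e2]
    field_simp
    ring
  have hns : ((Complex.normSq (1 - w) : ℝ) : ℂ) * w = -(1 - w) ^ 2 := by
    rw [← Complex.mul_conj, map_sub, map_one, conj_eq_inv hw1]
    field_simp
    ring
  have hns0 : ((Complex.normSq (1 - w) : ℝ) : ℂ) ≠ 0 := by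
    have : Complex.normSq (1 - w) ≠ 0 := fun h => h1w (Complex.normSq_eq_zero.1 h)
    exact_mod_cast this
  unfold ker
  push_cast
  have hS : ∑ k ∈ range n, (1 - 2 * (k : ℂ) / n) * w ^ k = -4 * w / n / (1 - w) ^ 2 := by
    rw [eq_div_iff (pow_ne_zero 2 h1w), ← hkey]; ring
  rw [hS]
  have hsq : (1 - w) ^ 2 = -(((Complex.normSq (1 - w) : ℝ) : ℂ) * w) := by rw [hns]; ring
  rw [hsq]
  field_simp

/-- the primitive `2n`-th root `exp(π i / n)` -/
noncomputable def rt (n : ℕ) : ℂ := Complex.exp (((Real.pi / n : ℝ) : ℂ) * Complex.I)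

lemma norm_rt (n : ℕ) : ‖rt n‖ = 1 := by
  unfold rt; rw [Complex.norm_exp_ofReal_mul_I]

lemma rt_pow {n : ℕ} (hn : 0 < n) : rt n ^ n = -1 := by
  unfold rt
  have hn' : (n : ℂ) ≠ 0 := by exact_mod_cast hn.ne'
  rw [← Complex.exp_nat_mul]
  have : (n : ℂ) * (((Real.pi / n : ℝ) : ℂ) * Complex.I) = Real.pi * Complex.I := by
    push_cast
    field_simp
  rw [this, Complex.exp_pi_mul_I]

/-- the kernel matrix -/
noncomputable def KK (n : ℕ) (j i : ℕ) : ℝ :=
  ker n (pt n (rt n) j * (starRingEnd ℂ) (pt n 1 i))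

lemma KK_eq {n : ℕ} (hn : 0 < n) (j i : ℕ) :
    ((KK n j i : ℝ) : ℂ) = 1 / n * ∑ l ∈ range n, (1 - 2 * l / n)
      * (pt n (rt n) j ^ l * (starRingEnd ℂ) (pt n 1 i ^ l)) := by
  unfold KK
  rw [ker_eq hn]
  · congr 1
    exact Finset.sum_congr rfl fun l _ => by rw [mul_pow, map_pow]
  · rw [mul_pow, ← map_pow, pt_pow n hn.ne', pt_pow n hn.ne', rt_pow hn]; simp
  · rw [norm_mul, Complex.norm_conj, norm_pt _ (norm_rt n), norm_pt _ (by simp), one_mul]

lemma KK_eq' {n : ℕ} (hn : 0 < n) (j i : ℕ) :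
    ((KK n j i : ℝ) : ℂ) = 1 / n * ∑ l ∈ range n, (1 - 2 * l / n)
      * (pt n 1 i ^ l * (starRingEnd ℂ) (pt n (rt n) j ^ l)) := by
  have h := congrArg (starRingEnd ℂ) (KK_eq hn j i)
  rw [Complex.conj_ofReal] at h
  rw [h, map_mul, map_sum]
  have e1 : (starRingEnd ℂ) (1 / (n : ℂ)) = 1 / n := by
    rw [map_div₀, map_one, Complex.conj_natCast]
  rw [e1]
  congr 1
  refine Finset.sum_congr rfl fun l _ => ?_
  rw [map_mul, map_mul, Complex.conj_conj, map_sub, map_one, map_div₀, map_mul,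
    Complex.conj_natCast, Complex.conj_natCast]
  have : (starRingEnd ℂ) (2 : ℂ) = 2 := by
    have := Complex.conj_natCast 2
    push_cast at this
    exact this
  rw [this]
  ring

lemma K_rows {n : ℕ} (hn : 0 < n) (f : ℕ → ℂ) (j : ℕ) :
    ∑ i ∈ range n, ((KK n j i : ℝ) : ℂ) * ev n f (pt n 1 i)
      = ev n (fun k => (1 - 2 * k / n) * f k) (pt n (rt n) j) := by
  have hn' : (n : ℂ) ≠ 0 := by exact_mod_cast hn.ne'
  have h1 : ∀ i ∈ range n, ((KK n j i : ℝ) : ℂ) * ev n f (pt n 1 i)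
      = ∑ l ∈ range n, 1 / n * (1 - 2 * l / n) * pt n (rt n) j ^ l
        * (ev n f (pt n 1 i) * (starRingEnd ℂ) (pt n 1 i ^ l)) := fun i _ => by
    rw [KK_eq hn, mul_assoc, Finset.sum_mul, Finset.mul_sum]
    exact Finset.sum_congr rfl fun l _ => by ring
  rw [Finset.sum_congr rfl h1, Finset.sum_comm]
  unfold ev
  refine Finset.sum_congr rfl fun l hl => ?_
  rw [← Finset.mul_sum]
  have h2 := coef_of_values n hn.ne' (ρ := 1) (by simp) f l (Finset.mem_range.1 hl)
  unfold ev at h2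
  rw [h2]
  field_simp

lemma K_cols {n : ℕ} (hn : 0 < n) (f : ℕ → ℂ) (i : ℕ) :
    ∑ j ∈ range n, ((KK n j i : ℝ) : ℂ) * ev n f (pt n (rt n) j)
      = ev n (fun k => (1 - 2 * k / n) * f k) (pt n 1 i) := by
  have hn' : (n : ℂ) ≠ 0 := by exact_mod_cast hn.ne'
  have h1 : ∀ j ∈ range n, ((KK n j i : ℝ) : ℂ) * ev n f (pt n (rt n) j)
      = ∑ l ∈ range n, 1 / n * (1 - 2 * l / n) * pt n 1 i ^ l
        * (ev n f (pt n (rt n) j) * (starRingEnd ℂ) (pt n (rt n) j ^ l)) := fun j _ => by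
    rw [KK_eq' hn, mul_assoc, Finset.sum_mul, Finset.mul_sum]
    exact Finset.sum_congr rfl fun l _ => by ring
  rw [Finset.sum_congr rfl h1, Finset.sum_comm]
  unfold ev
  refine Finset.sum_congr rfl fun l hl => ?_
  rw [← Finset.mul_sum]
  have h2 := coef_of_values n hn.ne' (norm_rt n) f l (Finset.mem_range.1 hl)
  unfold ev at h2
  rw [h2]
  field_simp

lemma ev_delta {n : ℕ} (hn : 0 < n) (z : ℂ) : ev n (fun k => if k = 0 then 1 else 0) z = 1 := by
  unfold ev
  rw [Finset.sum_eq_single 0]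
  · simp
  · intro b _ hb; simp [hb]
  · intro h; exact absurd (Finset.mem_range.2 hn) h

lemma ev_delta' {n : ℕ} (hn : 0 < n) (z : ℂ) :
    ev n (fun k => (1 - 2 * (k : ℂ) / n) * if k = 0 then 1 else 0) z = 1 := by
  unfold ev
  rw [Finset.sum_eq_single 0]
  · simp
  · intro b _ hb; simp [hb]
  · intro h; exact absurd (Finset.mem_range.2 hn) h

lemma K_row_sum {n : ℕ} (hn : 0 < n) (j : ℕ) : ∑ i ∈ range n, KK n j i = 1 := by
  have h := K_rows hn (fun k => if k = 0 then 1 else 0) j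
  simp only [ev_delta hn, mul_one] at h
  rw [ev_delta' hn] at h
  exact_mod_cast h

lemma K_col_sum {n : ℕ} (hn : 0 < n) (i : ℕ) : ∑ j ∈ range n, KK n j i = 1 := by
  have h := K_cols hn (fun k => if k = 0 then 1 else 0) i
  simp only [ev_delta hn, mul_one] at h
  rw [ev_delta' hn] at h
  exact_mod_cast h


/-! ### the flat polynomial -/

/-- `S - (2/n) X S'` -/
noncomputable def flat (n : ℕ) (S : ℂ[X]) : ℂ[X] := S - C (2 / (n : ℂ)) * (X * derivative S)

lemma coeff_X_deriv (P : ℂ[X]) (m : ℕ) : (X * derivative P).coeff m = m * P.coeff m := by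
  cases m with
  | zero => simp
  | succ m =>
    rw [Polynomial.coeff_X_mul, Polynomial.coeff_derivative]
    push_cast
    ring

lemma flat_coeff (n : ℕ) (S : ℂ[X]) (k : ℕ) :
    (flat n S).coeff k = (1 - 2 * k / n) * S.coeff k := by
  unfold flat
  rw [coeff_sub, coeff_C_mul, coeff_X_deriv]
  ring

lemma S2flat {n : ℕ} (hn : 0 < n) (S : ℂ[X]) (m : ℕ) :
    (S ^ 2 * flat n S).coeff m = (1 - 2 * m / (3 * n)) * (S ^ 3).coeff m := by
  have hn' : (n : ℂ) ≠ 0 := by exact_mod_cast hn.ne'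
  have h1 : S ^ 2 * flat n S = S ^ 3 - C (2 / (3 * (n : ℂ))) * (X * derivative (S ^ 3)) := by
    unfold flat
    rw [Polynomial.derivative_pow]
    have h3 : (C (2 / (n : ℂ)) : ℂ[X]) = C (2 / (3 * (n : ℂ))) * C 3 := by
      rw [← C_mul]; congr 1; field_simp
    rw [h3]
    simp only [Nat.cast_ofNat]
    ring_nf
  rw [h1, coeff_sub, coeff_C_mul, coeff_X_deriv]
  ring

lemma Sflat {n : ℕ} (hn : 0 < n) (S : ℂ[X]) (m : ℕ) :
    (S * flat n S).coeff m = (1 - m / n) * (S ^ 2).coeff m := by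
  have hn' : (n : ℂ) ≠ 0 := by exact_mod_cast hn.ne'
  have h1 : S * flat n S = S ^ 2 - C (1 / (n : ℂ)) * (X * derivative (S ^ 2)) := by
    unfold flat
    rw [Polynomial.derivative_pow]
    have h3 : (C (2 / (n : ℂ)) : ℂ[X]) = C (1 / (n : ℂ)) * C 2 := by
      rw [← C_mul]; congr 1; field_simp
    rw [h3]
    simp only [Nat.cast_ofNat]
    ring_nf
  rw [h1, coeff_sub, coeff_C_mul, coeff_X_deriv]
  ring

lemma pow2_high {n : ℕ} {S : ℂ[X]} (h : Fr n S) : ∀ k, n + n ≤ k → (S ^ 2).coeff k = 0 := by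
  intro k hk
  rw [sq]
  exact mul_high h h k (by omega)

lemma pow3_high {n : ℕ} {S : ℂ[X]} (h : Fr n S) : ∀ k, n + n + n ≤ k → (S ^ 3).coeff k = 0 := by
  intro k hk
  rw [pow_succ, Polynomial.coeff_mul]
  refine Finset.sum_eq_zero fun x hx => ?_
  have := Finset.HasAntidiagonal.mem_antidiagonal.1 hx
  rcases le_or_gt n x.2 with h1 | h1
  · rw [h.high _ h1, mul_zero]
  · rw [pow2_high h _ (by omega), zero_mul]

/-- the symmetric inequality -/
theorem symIneq {n : ℕ} (hn : 0 < n) {S : ℂ[X]} (h : Fr n S) (hS : Jp n S = S) :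
    61 / 400 * ∑ k ∈ range n, ‖S.coeff k‖ ^ 2
      ≤ ∑ k ∈ range n, ‖(S + S * S).coeff k‖ ^ 2 := by
  have hn0 : n ≠ 0 := hn.ne'
  have hnC : (n : ℂ) ≠ 0 := by exact_mod_cast hn0
  have hnR : (0 : ℝ) < n := by exact_mod_cast hn
  set X₀ := ∑ k ∈ range n, ‖S.coeff k‖ ^ 2 with hX₀
  set E : ℕ → ℂ := fun i => pt n 1 i with hE
  set O : ℕ → ℂ := fun j => pt n (rt n) j with hO
  have hE1 : ∀ i, ‖E i‖ = 1 := fun i => norm_pt _ (by simp) i
  have hO1 : ∀ j, ‖O j‖ = 1 := fun j => norm_pt _ (norm_rt n) j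
  have hEn : ∀ i, E i ^ n = 1 := fun i => by rw [hE]; simp only; rw [pt_pow n hn0]; simp
  have hOn : ∀ j, O j ^ n = -1 := fun j => by rw [hO]; simp only; rw [pt_pow n hn0, rt_pow hn]
  set x : ℕ → ℝ := fun i => -(S.eval (E i)).re with hx
  set y : ℕ → ℝ := fun j => (S.eval (O j)).im with hy
  set p : ℕ → ℝ := fun j => ∑ i ∈ range n, KK n j i * x i with hp
  have hSE : ∀ i, S.eval (E i) = ((-x i : ℝ) : ℂ) := fun i => by
    have h1 := Jp_eval h (hE1 i)
    rw [hS, hEn i, one_mul] at h1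
    have h2 : (S.eval (E i)).im = 0 := Complex.conj_eq_iff_im.1 h1.symm
    apply Complex.ext
    · simp [hx]
    · simp [h2]
  have hSO : ∀ j, S.eval (O j) = (y j : ℂ) * Complex.I := fun j => by
    have h1 := Jp_eval h (hO1 j)
    rw [hS, hOn j] at h1
    have h2 : (S.eval (O j)).re = 0 := by
      have := congrArg Complex.re h1
      simp at this
      linarith
    apply Complex.ext
    · simp [h2]
    · simp [hy]
  have hevS : ∀ z, S.eval z = ev n S.coeff z := fun z => eval_ev h.high z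
  -- sums
  have hx0 : ∑ i ∈ range n, x i = 0 := by
    have h1 := sum_ev n hn0 (ρ := 1) (by simp) S.coeff
    rw [h.zero, mul_zero] at h1
    have h2 : ((-(∑ i ∈ range n, x i) : ℝ) : ℂ) = 0 := by
      rw [← h1, ← Finset.sum_neg_distrib]
      push_cast
      exact Finset.sum_congr rfl fun i _ => by
        rw [← hevS]; have := hSE i; simp only [hE] at this; rw [this]; push_cast; rfl
    have h3 : -(∑ i ∈ range n, x i) = 0 := by exact_mod_cast h2
    linarith
  have hx2 : ∑ i ∈ range n, x i ^ 2 = n * X₀ := by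
    rw [hX₀, ← parseval n hn0 (ρ := 1) (by simp) S.coeff]
    refine Finset.sum_congr rfl fun i _ => ?_
    rw [← hevS]
    have := hSE i
    simp only [hE] at this
    rw [this, Complex.norm_real, Real.norm_eq_abs, sq_abs]
    ring
  have hy2 : ∑ j ∈ range n, y j ^ 2 = n * X₀ := by
    rw [hX₀, ← parseval n hn0 (norm_rt n) S.coeff]
    refine Finset.sum_congr rfl fun j _ => ?_
    rw [← hevS]
    have := hSO j
    simp only [hO] at this
    rw [this, norm_mul, Complex.norm_I, mul_one, Complex.norm_real, Real.norm_eq_abs, sq_abs]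
  -- p
  have hflatO : ∀ j, (flat n S).eval (O j) = ((-p j : ℝ) : ℂ) := fun j => by
    have h1 := K_rows hn S.coeff j
    have h2 : (flat n S).eval (O j) = ev n (fun k => (1 - 2 * k / n) * S.coeff k) (O j) := by
      rw [eval_ev (M := n) (fun k hk => by rw [flat_coeff, h.high k hk, mul_zero])]
      unfold ev
      exact Finset.sum_congr rfl fun k _ => by rw [flat_coeff]
    rw [h2]
    simp only [hO]
    rw [← h1, hp]
    simp only
    rw [← Finset.sum_neg_distrib]
    push_cast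
    refine Finset.sum_congr rfl fun i _ => ?_
    rw [← hevS]
    have := hSE i
    simp only [hE] at this
    rw [this]
    push_cast
    ring
  set b := ∑ k ∈ range n, ‖(1 - 2 * (k : ℂ) / n) * S.coeff k‖ ^ 2 with hb
  have hp2 : ∑ j ∈ range n, p j ^ 2 = n * b := by
    rw [hb, ← parseval n hn0 (norm_rt n) (fun k => (1 - 2 * (k : ℂ) / n) * S.coeff k)]
    refine Finset.sum_congr rfl fun j _ => ?_
    have h2 : (flat n S).eval (O j) = ev n (fun k => (1 - 2 * k / n) * S.coeff k) (O j) := by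
      rw [eval_ev (M := n) (fun k hk => by rw [flat_coeff, h.high k hk, mul_zero])]
      unfold ev
      exact Finset.sum_congr rfl fun k _ => by rw [flat_coeff]
    have h3 := hflatO j
    rw [h2] at h3
    simp only [hO] at h3
    rw [h3, Complex.norm_real, Real.norm_eq_abs, sq_abs, neg_sq]
  -- identity 1
  have hid1 : ∑ i ∈ range n, x i ^ 3 = 3 * ∑ j ∈ range n, y j ^ 2 * p j := by
    set τ := (S ^ 3).coeff with hτ
    have hτ0 : τ 0 = 0 := by
      rw [hτ, pow_succ, Polynomial.mul_coeff_zero, h.zero, mul_zero]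
    have e1 : ∑ i ∈ range n, (S ^ 3).eval (E i) = n * (τ n + τ (n + n)) := by
      have h1 : ∀ i ∈ range n, (S ^ 3).eval (E i)
          = ev n (fun k => τ k + 1 * τ (n + k) + 1 ^ 2 * τ (n + n + k)) (pt n 1 i) := fun i _ => by
        rw [eval_ev (pow3_high h), ev_fold3 n _ _ 1 (hEn i)]
      rw [Finset.sum_congr rfl h1, sum_ev n hn0 (ρ := 1) (by simp)]
      simp only [add_zero, hτ0]
      ring
    have e2 : ∑ j ∈ range n, (S ^ 2 * flat n S).eval (O j) = -(n / 3) * (τ n + τ (n + n)) := by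
      have h1 : ∀ j ∈ range n, (S ^ 2 * flat n S).eval (O j)
          = ev n (fun k => (S ^ 2 * flat n S).coeff k + (-1) * (S ^ 2 * flat n S).coeff (n + k)
            + (-1) ^ 2 * (S ^ 2 * flat n S).coeff (n + n + k)) (pt n (rt n) j) := fun j _ => by
        rw [eval_ev (M := n + n + n) (fun k hk => by rw [S2flat hn, pow3_high h k hk, mul_zero]),
          ev_fold3 n _ _ (-1) (hOn j)]
      rw [Finset.sum_congr rfl h1, sum_ev n hn0 (norm_rt n)]
      simp only [add_zero, S2flat hn]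
      rw [← hτ, hτ0]
      push_cast
      field_simp
      ring
    have e3 : ((∑ i ∈ range n, x i ^ 3 : ℝ) : ℂ) = -∑ i ∈ range n, (S ^ 3).eval (E i) := by
      rw [← Finset.sum_neg_distrib]
      push_cast
      refine Finset.sum_congr rfl fun i _ => ?_
      rw [eval_pow, hSE i]
      push_cast
      ring
    have e4 : ((∑ j ∈ range n, y j ^ 2 * p j : ℝ) : ℂ)
        = ∑ j ∈ range n, (S ^ 2 * flat n S).eval (O j) := by
      push_cast
      refine Finset.sum_congr rfl fun j _ => ?_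
      rw [eval_mul, eval_pow, hSO j, hflatO j, mul_pow, Complex.I_sq]
      push_cast
      ring
    have e5 : ((∑ i ∈ range n, x i ^ 3 : ℝ) : ℂ)
        = ((3 * ∑ j ∈ range n, y j ^ 2 * p j : ℝ) : ℂ) := by
      rw [e3, e1]
      rw [Complex.ofReal_mul, e4, e2]
      push_cast
      ring
    exact_mod_cast e5
  -- identity 2
  have hid2 : ∑ i ∈ range n, (x i ^ 2 - ∑ j ∈ range n, KK n j i * y j ^ 2) ^ 2
      = 4 * ∑ j ∈ range n, y j ^ 2 * p j ^ 2 := by
    set τ := (S ^ 2).coeff with hτ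
    set d : ℕ → ℂ := fun k => τ k * (2 - 2 * k / n) + τ (n + k) * (2 * k / n) with hd
    have e1 : ∀ i, (((x i ^ 2 - ∑ j ∈ range n, KK n j i * y j ^ 2 : ℝ)) : ℂ)
        = ev n d (pt n 1 i) := fun i => by
      have f1 : ((x i ^ 2 : ℝ) : ℂ) = ev n (fun k => τ k + 1 * τ (n + k)) (pt n 1 i) := by
        rw [← ev_fold n _ _ 1 (hEn i), ← eval_ev (pow2_high h), eval_pow, hSE i]
        push_cast; ring
      have f2 : ∀ j, ((y j ^ 2 : ℝ) : ℂ)
          = -ev n (fun k => τ k + (-1) * τ (n + k)) (pt n (rt n) j) := fun j => by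
        rw [← ev_fold n _ _ (-1) (hOn j), ← eval_ev (pow2_high h), eval_pow, hSO j, mul_pow,
          Complex.I_sq]
        push_cast; ring
      have f3 : ((∑ j ∈ range n, KK n j i * y j ^ 2 : ℝ) : ℂ)
          = -ev n (fun k => (1 - 2 * k / n) * (τ k + (-1) * τ (n + k))) (pt n 1 i) := by
        rw [← K_cols hn, ← Finset.sum_neg_distrib]
        rw [Complex.ofReal_sum]
        refine Finset.sum_congr rfl fun j _ => ?_
        rw [Complex.ofReal_mul, f2 j]
        ring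
      rw [Complex.ofReal_sub, f1, f3]
      unfold ev
      rw [sub_neg_eq_add, ← Finset.sum_add_distrib]
      refine Finset.sum_congr rfl fun k _ => ?_
      simp only [hd]
      ring
    have e2 : ∀ j, 2 * (S * flat n S).eval (O j) = ev n d (pt n (rt n) j) := fun j => by
      rw [eval_ev (M := n + n) (fun k hk => by rw [Sflat hn, pow2_high h k hk, mul_zero]),
        ev_fold n _ _ (-1) (hOn j)]
      unfold ev
      rw [Finset.mul_sum]
      refine Finset.sum_congr rfl fun k _ => ?_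
      simp only [Sflat hn, hd, ← hτ]
      push_cast
      field_simp
      ring
    have e3 : ∀ i ∈ range n, (x i ^ 2 - ∑ j ∈ range n, KK n j i * y j ^ 2) ^ 2
        = ‖ev n d (pt n 1 i)‖ ^ 2 := fun i _ => by
      rw [← e1 i, Complex.norm_real, Real.norm_eq_abs, sq_abs]
    have e4 : ∀ j ∈ range n, 4 * (y j ^ 2 * p j ^ 2) = ‖ev n d (pt n (rt n) j)‖ ^ 2 := fun j _ => by
      rw [← e2 j, eval_mul, hSO j, hflatO j, norm_mul, norm_mul, norm_mul, Complex.norm_I,
        Complex.norm_real, Complex.norm_real, mul_one, mul_pow, mul_pow]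
      simp only [Real.norm_eq_abs, sq_abs, neg_sq]
      norm_num
    rw [Finset.sum_congr rfl e3, parseval n hn0 (ρ := 1) (by simp),
      ← parseval n hn0 (norm_rt n) d, Finset.mul_sum]
    exact Finset.sum_congr rfl fun j hj => (e4 j hj).symm
  have hX0 : 0 ≤ X₀ := Finset.sum_nonneg fun k _ => sq_nonneg _
  have key := ineqAB n x y p (KK n) X₀ b hX0 (fun j i => ker_nonneg _ _)
    (fun j _ => K_row_sum hn j) (fun i _ => K_col_sum hn i) (fun j _ => rfl)
    hx0 hx2 hy2 hp2 hid1 hid2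
  -- the energy
  set H := Hpol n S X₀ with hH
  set g := H.coeff with hg
  have hHev : ∀ z, H.eval z = ev (n + n) g z := fun z => eval_ev (Hpol_high h X₀ hn) z
  have k1 : ∀ i ∈ range n, (2 * x i - x i ^ 2 + X₀) ^ 2
      = ‖ev n (fun k => g k + 1 * g (n + k)) (pt n 1 i)‖ ^ 2 := fun i _ => by
    rw [← ev_fold n _ _ 1 (hEn i), ← hHev, Hpol_eval h X₀ (hE1 i), hS]
    have h1 : (S.eval (pt n 1 i)) = ((-x i : ℝ) : ℂ) := hSE i
    rw [h1, Complex.ofReal_re, Complex.norm_real, norm_mul, norm_pow]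
    rw [show ‖pt n 1 i‖ = 1 from hE1 i, one_pow, one_mul, Complex.norm_real]
    simp only [Real.norm_eq_abs, sq_abs]
    ring
  have k2 : ∀ j ∈ range n, (y j ^ 2 - X₀) ^ 2
      = ‖ev n (fun k => g k + (-1) * g (n + k)) (pt n (rt n) j)‖ ^ 2 := fun j _ => by
    rw [← ev_fold n _ _ (-1) (hOn j), ← hHev, Hpol_eval h X₀ (hO1 j), hS]
    have h1 : (S.eval (pt n (rt n) j)) = (y j : ℂ) * Complex.I := hSO j
    rw [h1, norm_mul, norm_mul, norm_pow]
    rw [show ‖pt n (rt n) j‖ = 1 from hO1 j, one_pow, one_mul, Complex.norm_real,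
      Complex.norm_real, Complex.norm_I, mul_one]
    simp only [Real.norm_eq_abs, sq_abs]
    simp
  have k3 : ∑ i ∈ range n, (2 * x i - x i ^ 2 + X₀) ^ 2 + ∑ j ∈ range n, (y j ^ 2 - X₀) ^ 2
      = 2 * n * ∑ k ∈ range (n + n), ‖g k‖ ^ 2 := by
    rw [Finset.sum_congr rfl k1, Finset.sum_congr rfl k2, parseval n hn0 (ρ := 1) (by simp),
      parseval n hn0 (norm_rt n), Finset.sum_range_add, ← mul_add, ← Finset.sum_add_distrib,
      ← Finset.sum_add_distrib, Finset.mul_sum, Finset.mul_sum]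
    refine Finset.sum_congr rfl fun k _ => ?_
    have par := parallelogram_law_with_norm ℝ (g k) (g (n + k))
    have par1 : ‖g k + 1 * g (n + k)‖ ^ 2 + ‖g k + (-1) * g (n + k)‖ ^ 2
        = 2 * (‖g k‖ ^ 2 + ‖g (n + k)‖ ^ 2) := by
      rw [show g k + 1 * g (n + k) = g k + g (n + k) by ring,
        show g k + (-1) * g (n + k) = g k - g (n + k) by ring]
      nlinarith
    rw [par1]; ring
  have k4 := Hpol_energy h X₀ hn
  rw [hS] at k4
  rw [← hH, ← hg, ← hX₀] at k4
  rw [k3, k4] at key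
  have k5 : (61 / 100 : ℝ) * (n * X₀)
      ≤ n * (4 * ∑ k ∈ range n, ‖(S + S * S).coeff k‖ ^ 2) := by
    calc _ ≤ _ := key
      _ = _ := by ring
  have k6 : (61 / 100 : ℝ) * X₀ ≤ 4 * ∑ k ∈ range n, ‖(S + S * S).coeff k‖ ^ 2 := by
    have : (n : ℝ) * (61 / 100 * X₀) ≤ n * (4 * ∑ k ∈ range n, ‖(S + S * S).coeff k‖ ^ 2) := by
      linarith
    exact le_of_mul_le_mul_left this hnR
  linarith

end Q94.LC
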